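import Mathlib

/-!
# Numbers `N` such that `2 N - n` has few prime factors `≤ G` for all odd `n ≤ G`
-/

set_option autoImplicit false

namespace Pool.Agent.H10.GB

open Finset

/-- the number of prime factors `≤ G` of `m`, counted with multiplicity -/
def Om (G m : ℕ) : ℕ := (m.primeFactorsList.filter (fun p => decide (p ≤ G))).length

/-- `N` is good: all numbers `2 N - n`, `n ≤ G` odd, have fewer than `W` prime factors `≤ G` -/
def Good (G W N : ℕ) : Prop := G < N ∧ ∀ n, n ≤ G → n % 2 = 1 → Om G (2 * N - n) < W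

/-- `e k_1 ⋯ k_W ∣ m` with odd `2 j + 1 ≤ k_1 ≤ … ≤ k_W ≤ G` -/
def Ch (G : ℕ) : ℕ → ℕ → ℕ → ℕ → Prop
  | 0, _, e, m => e ∣ m
  | W + 1, j, e, m => ∃ i, j ≤ i ∧ 2 * i + 1 ≤ G ∧ Ch G W i (e * (2 * i + 1)) m

theorem ch_of_list (G : ℕ) : ∀ (W j e m : ℕ) (l : List ℕ), l.Pairwise (· ≤ ·) →
    (∀ k ∈ l, 2 * j + 1 ≤ k ∧ k ≤ G ∧ k % 2 = 1) → W ≤ l.length → e * l.prod ∣ m →
    Ch G W j e m := by
  intro W
  induction W with
  | zero =>
    intro j e m l _ _ _ h
    exact (Dvd.intro _ rfl).trans h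
  | succ W ih =>
    intro j e m l h1 h2 h3 h4
    match l, h1, h2, h3, h4 with
    | [], _, _, h3, _ => simp at h3
    | k :: l, h1, h2, h3, h4 =>
      obtain ⟨a1, a2, a3⟩ := h2 k (by simp)
      refine ⟨k / 2, by omega, by omega, ?_⟩
      have hk : 2 * (k / 2) + 1 = k := by omega
      rw [hk]
      rw [List.pairwise_cons] at h1
      apply ih _ _ _ l h1.2
      · intro q hq
        have b1 := h2 q (by simp [hq])
        have b2 := h1.1 q hq
        exact ⟨by omega, b1.2.1, b1.2.2⟩
      · simp only [List.length_cons] at h3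
        omega
      · rw [List.prod_cons, ← mul_assoc] at h4
        exact h4

theorem om_ch (G W m : ℕ) (hm : m % 2 = 1) (h : W ≤ Om G m) : Ch G W 1 1 m := by
  have hm0 : m ≠ 0 := by omega
  apply ch_of_list G W 1 1 m (m.primeFactorsList.filter (fun p => decide (p ≤ G)))
  · exact List.Pairwise.sublist List.filter_sublist (Nat.primeFactorsList_sorted m).pairwise
  · intro k hk
    rw [List.mem_filter, Nat.mem_primeFactorsList hm0] at hk
    obtain ⟨⟨hp, hd⟩, hG⟩ := hk
    have hodd : k % 2 = 1 := by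
      have : ¬ 2 ∣ k := fun h2 => by
        have := h2.trans hd
        omega
      omega
    have h2 := hp.two_le
    refine ⟨?_, of_decide_eq_true hG, hodd⟩
    omega
  · exact h
  · rw [one_mul]
    calc (m.primeFactorsList.filter (fun p => decide (p ≤ G))).prod ∣ m.primeFactorsList.prod :=
          List.Sublist.prod_dvd_prod List.filter_sublist
      _ = m := Nat.prod_primeFactorsList hm0

/-- every residue class modulo every odd `q` contains at most `A / q + E` elements of `S` -/
def Fam (S : Finset ℕ) (A E : ℝ) : Prop :=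
  ∀ q r : ℕ, q % 2 = 1 → ((S.filter (fun N : ℕ => N % q = r)).card : ℝ) ≤ A / q + E

theorem cnt0 (S : Finset ℕ) (A E : ℝ) (hA : 0 ≤ A) (hE : 0 ≤ E) (hS : Fam S A E) (G n e : ℕ)
    (hn : n ≤ G) (he : e % 2 = 1) :
    ((S.filter (fun N : ℕ => G < N ∧ e ∣ 2 * N - n)).card : ℝ) ≤ A / e + E := by
  have hodd : Nat.Coprime e 2 := by
    rw [Nat.coprime_two_right, Nat.odd_iff]
    exact he
  rcases (S.filter (fun N : ℕ => G < N ∧ e ∣ 2 * N - n)).eq_empty_or_nonempty with h0 | ⟨N0, h0⟩
  · rw [h0]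
    simp only [card_empty, Nat.cast_zero]
    positivity
  have hinj : ∀ N N' : ℕ, G < N → e ∣ 2 * N - n → e ∣ 2 * N' - n → N ≤ N' → N % e = N' % e := by
    intro N N' hN h1 h2 h4
    have h5 : e ∣ 2 * (N' - N) := by
      have := Nat.dvd_sub h2 h1
      have e1 : 2 * N' - n - (2 * N - n) = 2 * (N' - N) := by omega
      rwa [e1] at this
    have h6 : e ∣ N' - N := hodd.dvd_of_dvd_mul_left h5
    exact (Nat.modEq_iff_dvd' h4).2 h6
  refine le_trans ?_ (hS e (N0 % e) he)
  apply Nat.cast_le.2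
  apply card_le_card
  intro N hN
  rw [mem_filter] at hN h0 ⊢
  refine ⟨hN.1, ?_⟩
  rcases le_total N N0 with h | h
  · exact hinj N N0 hN.2.1 hN.2.2 h0.2.2 h
  · exact (hinj N0 N h0.2.1 h0.2.2 hN.2.2 h).symm

theorem tele (j : ℕ) (hj : 1 ≤ j) (M : ℕ) (hM : j ≤ M) :
    ∑ i ∈ Ico j M, (1 / ((2 * (i : ℝ) - 1) * (2 * i + 1))) =
      1 / (2 * (2 * (j : ℝ) - 1)) - 1 / (2 * (2 * (M : ℝ) - 1)) := by
  induction M, hM using Nat.le_induction with
  | base => simp
  | succ M hM ih =>
    rw [Finset.sum_Ico_succ_top hM, ih]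
    have h1 : (1 : ℝ) ≤ M := by exact_mod_cast hj.trans hM
    have h2 : (1 : ℝ) ≤ j := by exact_mod_cast hj
    have h3 : (2 * (M : ℝ) - 1) ≠ 0 := by linarith
    have h4 : (2 * (M : ℝ) + 1) ≠ 0 := by linarith
    have h5 : (2 * (j : ℝ) - 1) ≠ 0 := by linarith
    have h6 : (2 * ((M : ℝ) + 1) - 1) ≠ 0 := by linarith
    push_cast
    have e : 2 * ((M : ℝ) + 1) - 1 = 2 * M + 1 := by ring
    rw [e]
    field_simp
    ring

open Classical in
theorem cnt (S : Finset ℕ) (A E : ℝ) (hA : 0 ≤ A) (hE : 0 ≤ E) (hS : Fam S A E) (G n : ℕ)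
    (hn : n ≤ G) : ∀ (W j e : ℕ), 1 ≤ j → 2 * j ≤ G + 1 → e % 2 = 1 →
    ((S.filter (fun N : ℕ => G < N ∧ Ch G W j e (2 * N - n))).card : ℝ) ≤
      A * G / (2 ^ W * (2 * j - 1) * e) + E * (G : ℝ) ^ W := by
  intro W
  induction W with
  | zero =>
    intro j e hj hjG he
    have h1 := cnt0 S A E hA hE hS G n e hn he
    have h2 : (((S.filter (fun N : ℕ => G < N ∧ Ch G 0 j e (2 * N - n))).card : ℕ) : ℝ) ≤
        A / e + E := by
      have : S.filter (fun N : ℕ => G < N ∧ Ch G 0 j e (2 * N - n)) =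
          S.filter (fun N : ℕ => G < N ∧ e ∣ 2 * N - n) := by
        ext N
        rw [mem_filter, mem_filter]
        exact Iff.rfl
      rw [this]
      exact h1
    refine h2.trans ?_
    have he0 : (0 : ℝ) < e := by
      have : 0 < e := by omega
      exact_mod_cast this
    have hj' : (1 : ℝ) ≤ j := by exact_mod_cast hj
    have hjG' : 2 * (j : ℝ) ≤ G + 1 := by exact_mod_cast hjG
    have hpos : (0 : ℝ) < 2 * j - 1 := by linarith
    have h4 : A / e ≤ A * G / (2 ^ 0 * (2 * j - 1) * e) := by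
      rw [div_le_div_iff₀ he0 (by positivity)]
      have : A * ((2 * j - 1) * e) ≤ A * (G * e) := by
        apply mul_le_mul_of_nonneg_left _ hA
        apply mul_le_mul_of_nonneg_right _ he0.le
        linarith
      calc A * (2 ^ 0 * (2 * j - 1) * e) = A * ((2 * j - 1) * e) := by ring
        _ ≤ A * (G * e) := this
        _ = A * G * e := by ring
    rw [pow_zero (G : ℝ)]
    linarith
  | succ W ih =>
    intro j e hj hjG he
    have he0 : (0 : ℝ) < e := by
      have : 0 < e := by omega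
      exact_mod_cast this
    have hj' : (1 : ℝ) ≤ j := by exact_mod_cast hj
    set M := (G + 1) / 2 with hM
    have hjM : j ≤ M := by omega
    have hMG : M ≤ G := by omega
    have hsub : S.filter (fun N : ℕ => G < N ∧ Ch G (W + 1) j e (2 * N - n)) ⊆
        (Ico j M).biUnion fun i =>
          S.filter (fun N : ℕ => G < N ∧ Ch G W i (e * (2 * i + 1)) (2 * N - n)) := by
      intro N hN
      obtain ⟨a1, a2, i, b1, b2, b3⟩ := mem_filter.1 hN
      rw [mem_biUnion]
      exact ⟨i, mem_Ico.2 ⟨b1, by omega⟩, mem_filter.2 ⟨a1, a2, b3⟩⟩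
    have hG0 : (0 : ℝ) ≤ G := Nat.cast_nonneg G
    calc (((S.filter (fun N : ℕ => G < N ∧ Ch G (W + 1) j e (2 * N - n))).card : ℕ) : ℝ)
        ≤ (((Ico j M).biUnion fun i =>
          S.filter (fun N : ℕ => G < N ∧ Ch G W i (e * (2 * i + 1)) (2 * N - n))).card : ℝ)
          := by exact_mod_cast card_le_card hsub
      _ ≤ ∑ i ∈ Ico j M, (((S.filter
          (fun N : ℕ => G < N ∧ Ch G W i (e * (2 * i + 1)) (2 * N - n))).card : ℕ) : ℝ) := by
          exact_mod_cast card_biUnion_le
      _ ≤ ∑ i ∈ Ico j M, (A * G / (2 ^ W * e) * (1 / ((2 * (i : ℝ) - 1) * (2 * i + 1))) +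
          E * (G : ℝ) ^ W) := by
          refine sum_le_sum fun i hi => ?_
          rw [mem_Ico] at hi
          have h1 := ih i (e * (2 * i + 1)) (by omega) (by omega) (by
            rw [Nat.mul_mod]
            have : (2 * i + 1) % 2 = 1 := by omega
            rw [he, this])
          refine h1.trans (le_of_eq ?_)
          congr 1
          have hi1 : (1 : ℝ) ≤ i := by exact_mod_cast hj.trans hi.1
          have h3 : (2 * (i : ℝ) - 1) ≠ 0 := by linarith
          push_cast
          field_simp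
      _ = A * G / (2 ^ W * e) * ∑ i ∈ Ico j M, (1 / ((2 * (i : ℝ) - 1) * (2 * i + 1))) +
          (M - j : ℕ) * (E * (G : ℝ) ^ W) := by
          rw [sum_add_distrib, ← mul_sum, sum_const, Nat.card_Ico, nsmul_eq_mul]
      _ ≤ A * G / (2 ^ W * e) * (1 / (2 * (2 * (j : ℝ) - 1))) + G * (E * (G : ℝ) ^ W) := by
          rw [tele j hj M hjM]
          apply add_le_add
          · apply mul_le_mul_of_nonneg_left _ (by positivity)
            have hM1 : (1 : ℝ) ≤ M := by exact_mod_cast hj.trans hjM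
            have : 0 ≤ 1 / (2 * (2 * (M : ℝ) - 1)) := by
              apply div_nonneg zero_le_one
              linarith
            linarith
          · apply mul_le_mul_of_nonneg_right _ (by positivity)
            have : M - j ≤ G := by omega
            exact_mod_cast this
      _ = A * G / (2 ^ (W + 1) * (2 * j - 1) * e) + E * (G : ℝ) ^ (W + 1) := by
          have h3 : (2 * (j : ℝ) - 1) ≠ 0 := by linarith
          rw [pow_succ, pow_succ]
          congr 1
          · field_simp
          · ring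

open Classical in
/-- few `N` are not good -/
theorem bad_count (S : Finset ℕ) (A E : ℝ) (hA : 0 ≤ A) (hE : 0 ≤ E) (hS : Fam S A E) (G W : ℕ)
    (hG : 1 ≤ G) :
    ((S.filter (fun N : ℕ => G < N ∧ ¬ Good G W N)).card : ℝ) ≤
      G * (A * G / 2 ^ W + E * (G : ℝ) ^ W) := by
  have hsub : S.filter (fun N : ℕ => G < N ∧ ¬ Good G W N) ⊆
      (Icc 1 G).biUnion fun n =>
        S.filter (fun N : ℕ => G < N ∧ Ch G W 1 1 (2 * N - n)) := by
    intro N hN
    obtain ⟨a1, a2, a3⟩ := mem_filter.1 hN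
    unfold Good at a3
    push Not at a3
    obtain ⟨n, b1, b2, b3⟩ := a3 a2
    rw [mem_biUnion]
    refine ⟨n, mem_Icc.2 ⟨by omega, b1⟩, mem_filter.2 ⟨a1, a2, ?_⟩⟩
    exact om_ch G W (2 * N - n) (by omega) b3
  have hbn : ∀ n ∈ Icc 1 G, (((S.filter
      (fun N : ℕ => G < N ∧ Ch G W 1 1 (2 * N - n))).card : ℕ) : ℝ) ≤
      A * G / 2 ^ W + E * (G : ℝ) ^ W := by
    intro n hn
    rw [mem_Icc] at hn
    have := cnt S A E hA hE hS G n hn.2 W 1 1 le_rfl (by omega) rfl
    refine this.trans (le_of_eq ?_)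
    norm_num
  calc (((S.filter (fun N : ℕ => G < N ∧ ¬ Good G W N)).card : ℕ) : ℝ)
      ≤ (((Icc 1 G).biUnion fun n =>
        S.filter (fun N : ℕ => G < N ∧ Ch G W 1 1 (2 * N - n))).card : ℝ) := by
        exact_mod_cast card_le_card hsub
    _ ≤ ∑ n ∈ Icc 1 G, (((S.filter
        (fun N : ℕ => G < N ∧ Ch G W 1 1 (2 * N - n))).card : ℕ) : ℝ) := by
        exact_mod_cast card_biUnion_le
    _ ≤ ∑ _n ∈ Icc 1 G, (A * G / 2 ^ W + E * (G : ℝ) ^ W) := sum_le_sum hbn
    _ = G * (A * G / 2 ^ W + E * (G : ℝ) ^ W) := by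
        rw [sum_const, nsmul_eq_mul, Nat.card_Icc, Nat.add_sub_cancel]

/-- the number of divisors all of whose prime factors are `≤ G` -/
theorem dv_card (G M : ℕ) (hM : M ≠ 0) :
    (M.divisors.filter (fun g => ∀ p ∈ g.primeFactorsList, p ≤ G)).card ≤ 2 ^ Om G M := by
  set l := M.primeFactorsList.filter (fun p => decide (p ≤ G)) with hl
  have h1 : (M.divisors.filter (fun g => ∀ p ∈ g.primeFactorsList, p ≤ G)).card ≤
      (l.sublists.toFinset).card := by
    apply Finset.card_le_card_of_injOn (fun g => g.primeFactorsList)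
    · intro g hg
      have hg' := mem_filter.1 (mem_coe.1 hg)
      rw [Nat.mem_divisors] at hg'
      simp only [List.coe_toFinset, Set.mem_ofPred_eq, List.mem_sublists]
      have h2 : g.primeFactorsList.Sublist M.primeFactorsList :=
        Nat.primeFactorsList_sublist_of_dvd hg'.1.1 hM
      have h3 := h2.filter (fun p => decide (p ≤ G))
      have h4 : g.primeFactorsList.filter (fun p => decide (p ≤ G)) = g.primeFactorsList := by
        rw [List.filter_eq_self]
        intro p hp
        exact decide_eq_true (hg'.2 p hp)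
      rwa [h4] at h3
    · intro g hg g' hg' hgg
      have hg1 := mem_filter.1 (mem_coe.1 hg)
      have hg2 := mem_filter.1 (mem_coe.1 hg')
      rw [Nat.mem_divisors] at hg1 hg2
      have e1 : g ≠ 0 := fun h => hM (by rw [h] at hg1; exact zero_dvd_iff.1 hg1.1.1)
      have e2 : g' ≠ 0 := fun h => hM (by rw [h] at hg2; exact zero_dvd_iff.1 hg2.1.1)
      have hgg' : g.primeFactorsList = g'.primeFactorsList := hgg
      rw [← Nat.prod_primeFactorsList e1, ← Nat.prod_primeFactorsList e2, hgg']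
  refine h1.trans ((List.toFinset_card_le _).trans ?_)
  rw [List.length_sublists]
  exact le_rfl

end Pool.Agent.H10.GB
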