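import Pool.Graph.R_pool_sql_team_seeded_63374d34.N333.GR.Wt

/-!
# The weight sums over the multiples of `g`
-/

set_option autoImplicit false

namespace Pool.Agent.H10.GB

open Finset Pool.Agent.N333.GR

/-- the rounded up quotient -/
lemma exceil (D g : ℕ) (hg : 1 ≤ g) : ∃ D' : ℕ, D ≤ g * D' ∧ ∀ e, D ≤ g * e → D' ≤ e := by
  classical
  have hex : ∃ e, D ≤ g * e := ⟨D, by nlinarith⟩
  exact ⟨Nat.find hex, Nat.find_spec hex, fun e he => Nat.find_min' hex he⟩

/-- the weight of an arbitrary step with `d` a multiple of `g` -/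
theorem wA (D Ts G t' g : ℕ) (hD : 1 ≤ D) (hG : 1 ≤ G) (hg : 1 ≤ g) :
    ∑ d ∈ (Icc D Ts).filter (fun d => g ∣ d),
      ∑ _t ∈ (Icc 1 Ts).filter (fun t => d ∣ t ∧ t' ≤ t ∧ t ≤ t' + 2 * G * d), ((g : ℝ) / d) ≤
      3 * G * (1 + Real.log Ts) := by
  have hgR : (0 : ℝ) < g := by exact_mod_cast hg
  have h1 : ∀ d ∈ (Icc D Ts).filter (fun d => g ∣ d),
      ∑ _t ∈ (Icc 1 Ts).filter (fun t => d ∣ t ∧ t' ≤ t ∧ t ≤ t' + 2 * G * d), ((g : ℝ) / d) ≤
        3 * G * ((g : ℝ) / d) := by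
    intro d hd
    rw [mem_filter, mem_Icc] at hd
    rw [sum_const, nsmul_eq_mul]
    have hc := Wt.cardWA Ts G t' d (by omega)
    have hc' : (((Icc 1 Ts).filter (fun t => d ∣ t ∧ t' ≤ t ∧ t ≤ t' + 2 * G * d)).card : ℝ) ≤
        3 * G := by
      have : ((Icc 1 Ts).filter (fun t => d ∣ t ∧ t' ≤ t ∧ t ≤ t' + 2 * G * d)).card ≤ 3 * G := by
        omega
      exact_mod_cast this
    exact mul_le_mul_of_nonneg_right hc' (by positivity)
  refine (sum_le_sum h1).trans ?_
  rw [← mul_sum]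
  have h2 : ∑ d ∈ (Icc D Ts).filter (fun d => g ∣ d), ((g : ℝ) / d) ≤
      ∑ d ∈ (Icc 1 Ts).image (fun e => g * e), ((g : ℝ) / d) := by
    apply sum_le_sum_of_subset_of_nonneg
    · intro d hd
      rw [mem_filter, mem_Icc] at hd
      obtain ⟨⟨a1, a2⟩, e, rfl⟩ := hd
      rw [mem_image]
      refine ⟨e, mem_Icc.2 ⟨?_, ?_⟩, rfl⟩
      · rcases Nat.eq_zero_or_pos e with h | h
        · subst h; simp at a1; omega
        · exact h
      · calc e ≤ g * e := Nat.le_mul_of_pos_left _ (by omega)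
          _ ≤ Ts := a2
    · intro i _ _; positivity
  have h3 : ∑ d ∈ (Icc 1 Ts).image (fun e => g * e), ((g : ℝ) / d) =
      ∑ e ∈ Icc 1 Ts, (1 / (e : ℝ)) := by
    rw [sum_image]
    · refine sum_congr rfl fun e he => ?_
      rw [mem_Icc] at he
      have he' : (0 : ℝ) < e := by exact_mod_cast he.1
      push_cast
      field_simp
    · intro a _ b _ hab
      exact Nat.eq_of_mul_eq_mul_left (by omega) hab
  have h4 := Wt.harm Ts
  exact mul_le_mul_of_nonneg_left ((h2.trans_eq h3).trans h4) (by positivity)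

/-- the weight of a step with a small sum in between and with `d` a multiple of `g` -/
theorem wB (D T0 Ts Y t' g : ℕ) (hD : 1 ≤ D) (hY : 2 ≤ Y) (hT0 : 1 ≤ T0) (ht : T0 ≤ t')
    (hg : 1 ≤ g) (hc : Ts ^ 2 * Y * g ≤ T0 * D ^ 2) :
    ∑ d ∈ (Icc D Ts).filter (fun d => g ∣ d),
      ∑ _t ∈ (Icc 1 Ts).filter (fun t => d ∣ t ∧ t' ≤ t ∧ Y * (t - t') < d), ((g : ℝ) / d) ≤
      3 * (1 + Real.log Ts) / Y := by
  have hgR : (0 : ℝ) < g := by exact_mod_cast hg
  have hg0 : 0 < g := hg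
  obtain ⟨D', hD1, hD2⟩ := exceil D g hg
  obtain ⟨T', hT1, hT2⟩ := exceil T0 g hg
  obtain ⟨s', hs1, hs2⟩ := exceil t' g hg
  set U := Ts / g with hU
  have hUg : g * U ≤ Ts := Nat.mul_div_le Ts g
  have hD'1 : 1 ≤ D' := by
    rcases Nat.eq_zero_or_pos D' with h | h
    · rw [h] at hD1; simp at hD1; omega
    · exact h
  have hT'1 : 1 ≤ T' := by
    rcases Nat.eq_zero_or_pos T' with h | h
    · rw [h] at hT1; simp at hT1; omega
    · exact h
  have hTs' : T' ≤ s' := hT2 s' (ht.trans hs1)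
  have hcond : U ^ 2 * Y ≤ T' * D' ^ 2 := by
    have h1 : g ^ 3 * (U ^ 2 * Y) ≤ g ^ 3 * (T' * D' ^ 2) := by
      calc g ^ 3 * (U ^ 2 * Y) = (g * U) ^ 2 * Y * g := by ring
        _ ≤ Ts ^ 2 * Y * g := by gcongr
        _ ≤ T0 * D ^ 2 := hc
        _ ≤ (g * T') * (g * D') ^ 2 := by gcongr
        _ = g ^ 3 * (T' * D' ^ 2) := by ring
    exact Nat.le_of_mul_le_mul_left h1 (by positivity)
  have hmain := Wt.t_WB D' T' U Y s' hD'1 hY hT'1 hTs' hcond
  have h2 : ∑ d ∈ (Icc D Ts).filter (fun d => g ∣ d),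
      ∑ _t ∈ (Icc 1 Ts).filter (fun t => d ∣ t ∧ t' ≤ t ∧ Y * (t - t') < d), ((g : ℝ) / d) ≤
      ∑ d ∈ (Icc D' U).image (fun e => g * e),
      ∑ _t ∈ (Icc 1 Ts).filter (fun t => d ∣ t ∧ t' ≤ t ∧ Y * (t - t') < d), ((g : ℝ) / d) := by
    apply sum_le_sum_of_subset_of_nonneg
    · intro d hd
      rw [mem_filter, mem_Icc] at hd
      obtain ⟨⟨a1, a2⟩, e, rfl⟩ := hd
      rw [mem_image]
      refine ⟨e, mem_Icc.2 ⟨hD2 e a1, ?_⟩, rfl⟩
      rw [hU, Nat.le_div_iff_mul_le hg0, mul_comm]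
      exact a2
    · intro i _ _
      exact sum_nonneg fun _ _ => by positivity
  have h3 : ∑ d ∈ (Icc D' U).image (fun e => g * e),
      ∑ _t ∈ (Icc 1 Ts).filter (fun t => d ∣ t ∧ t' ≤ t ∧ Y * (t - t') < d), ((g : ℝ) / d) ≤
      ∑ e ∈ Icc D' U,
      ∑ _s ∈ (Icc 1 U).filter (fun s => e ∣ s ∧ s' ≤ s ∧ Y * (s - s') < e), (1 / (e : ℝ)) := by
    rw [sum_image]
    · refine sum_le_sum fun e he => ?_
      rw [mem_Icc] at he
      have he0 : 0 < e := by omega
      have he' : (0 : ℝ) < e := by exact_mod_cast he0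
      have hw : (g : ℝ) / ((g * e : ℕ) : ℝ) = 1 / (e : ℝ) := by
        push_cast
        field_simp
      rw [sum_const, sum_const, nsmul_eq_mul, nsmul_eq_mul, hw]
      refine mul_le_mul_of_nonneg_right ?_ (by positivity)
      norm_cast
      apply Finset.card_le_card_of_injOn (fun t => t / g)
      · intro t ht1
        obtain ⟨b1, ⟨u, hu⟩, b3, b4⟩ := mem_filter.1 (mem_coe.1 ht1)
        rw [mem_Icc] at b1
        have hte : t = g * (e * u) := by rw [hu]; ring
        have hte' : t / g = e * u := by rw [hte, Nat.mul_div_cancel_left _ hg0]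
        rw [mem_coe, mem_filter, mem_Icc]
        simp only [hte']
        have c1 : s' ≤ e * u := hs2 _ (by rw [← hte]; exact b3)
        refine ⟨⟨?_, ?_⟩, Dvd.intro _ rfl, c1, ?_⟩
        · rcases Nat.eq_zero_or_pos (e * u) with h | h
          · rw [hte, h] at b1; simp at b1
          · exact h
        · rw [hU, Nat.le_div_iff_mul_le hg0, mul_comm, ← hte]
          exact b1.2
        · have c2 : g * (e * u - s') ≤ t - t' := by
            rw [Nat.mul_sub]
            omega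
          have c3 : Y * (g * (e * u - s')) < g * e :=
            lt_of_le_of_lt (Nat.mul_le_mul_left _ c2) b4
          have c4 : g * (Y * (e * u - s')) < g * e := by
            calc g * (Y * (e * u - s')) = Y * (g * (e * u - s')) := by ring
              _ < g * e := c3
          exact Nat.lt_of_mul_lt_mul_left c4
      · intro a ha b hb hab
        obtain ⟨_, ⟨u, hu⟩, _, _⟩ := mem_filter.1 (mem_coe.1 ha)
        obtain ⟨_, ⟨v, hv⟩, _, _⟩ := mem_filter.1 (mem_coe.1 hb)
        have hab' : a / g = b / g := hab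
        have e1 : a = g * (e * u) := by rw [hu]; ring
        have e2 : b = g * (e * v) := by rw [hv]; ring
        rw [e1, e2, Nat.mul_div_cancel_left _ hg0, Nat.mul_div_cancel_left _ hg0] at hab'
        rw [e1, e2, hab']
    · intro a _ b _ hab
      exact Nat.eq_of_mul_eq_mul_left (by omega) hab
  refine (h2.trans h3).trans (hmain.trans ?_)
  have hlog : Real.log (U : ℝ) ≤ Real.log Ts := by
    rcases Nat.eq_zero_or_pos U with h | h
    · rw [h]; simp; exact Wt.log_nonneg' Ts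
    · apply Real.log_le_log (by exact_mod_cast h)
      have : U ≤ Ts := Nat.div_le_self _ _
      exact_mod_cast this
  have hYp : (0 : ℝ) < Y := by
    have : 0 < Y := by omega
    exact_mod_cast this
  apply div_le_div_of_nonneg_right _ hYp.le
  linarith

end Pool.Agent.H10.GB
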