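import Pool.Agent.H10.GB.Bad
import Pool.Agent.H10.GB.Wg
import Pool.Graph.R_pool_sql_team_seeded_63374d34.N333.GR.Crt
import Pool.Graph.R_pool_sql_team_seeded_63374d34.N333.GR.Cnt

/-!
# The union bound over the runs, for good `N` and with the least common multiple
-/

set_option autoImplicit false

namespace Pool.Agent.H10.GB

open Finset Pool.Agent.N333.GR Pool.Agent.N333.GR.Cnt

/-- the least common multiple of the divisors of the list -/
def Lc (c : List (ℕ × ℕ)) : ℕ := (c.map Prod.snd).foldr Nat.lcm 1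

/-- the divisibility conditions of a list -/
def Cd (c : List (ℕ × ℕ)) (N : ℕ) : Prop := ∀ p ∈ c, (p.2 : ℤ) ∣ 2 * (N : ℤ) - p.1

lemma BB_Cd {G Y Ts D : ℕ} {S : Finset ℕ} {N : ℕ} : ∀ (k : ℕ) (c : List (ℕ × ℕ)) (t' : ℕ),
    BB G Y Ts D S N k c t' → Cd c N := by
  intro k
  induction k with
  | zero => intro c t' h; exact h
  | succ k ih =>
    intro c t' h
    obtain ⟨n, _, d, _, t, _, h⟩ := h
    intro p hp
    exact ih _ _ h p (List.mem_cons_of_mem _ hp)

lemma Lc_pos (c : List (ℕ × ℕ)) (h : ∀ p ∈ c, 0 < p.2) : 0 < Lc c := by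
  apply Crt.lc_pos
  intro d hd
  obtain ⟨p, hp, rfl⟩ := List.mem_map.1 hd
  exact h p hp

lemma prime_dvd_lc (p : ℕ) (hp : p.Prime) (l : List ℕ) (h : p ∣ l.foldr Nat.lcm 1) :
    ∃ d ∈ l, p ∣ d := by
  induction l with
  | nil =>
    simp only [List.foldr_nil, Nat.dvd_one] at h
    exact absurd h hp.ne_one
  | cons e l ih =>
    simp only [List.foldr_cons] at h
    have h1 := h.trans (Nat.lcm_dvd_mul _ _)
    rcases (Nat.Prime.dvd_mul hp).1 h1 with h2 | h2
    · exact ⟨e, by simp, h2⟩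
    · obtain ⟨d, hd, hpd⟩ := ih h2
      exact ⟨d, by simp [hd], hpd⟩

lemma dvd_odd (d n N : ℕ) (hn : n % 2 = 1) (h : (d : ℤ) ∣ 2 * (N : ℤ) - n) : Nat.Coprime d 2 := by
  rw [Nat.coprime_two_right]
  by_contra hev
  rw [Nat.not_odd_iff_even] at hev
  obtain ⟨k, hk⟩ := hev
  obtain ⟨q, hq⟩ := h
  rw [hk] at hq
  push_cast at hq
  have h2 : (n : ℤ) = 2 * (N - k * q) := by linarith
  omega

lemma Lc_dvd_diff (c : List (ℕ × ℕ)) (hc : ∀ p ∈ c, p.1 % 2 = 1) (N N' : ℕ) (h : Cd c N)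
    (h' : Cd c N') : ((Lc c : ℕ) : ℤ) ∣ (N' : ℤ) - N := by
  rw [Int.natCast_dvd]
  apply Crt.lc_dvd
  intro d hd
  obtain ⟨p, hp, rfl⟩ := List.mem_map.1 hd
  have h2 := dvd_sub (h' p hp) (h p hp)
  have he : 2 * (N' : ℤ) - p.1 - (2 * (N : ℤ) - p.1) = 2 * ((N' : ℤ) - N) := by ring
  rw [he, Int.natCast_dvd, Int.natAbs_mul] at h2
  exact (dvd_odd p.2 p.1 N (hc p hp) (h p hp)).dvd_of_dvd_mul_left h2

lemma Lc_odd (c : List (ℕ × ℕ)) (hc : ∀ p ∈ c, Nat.Coprime p.2 2) : Lc c % 2 = 1 := by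
  have h : ¬ 2 ∣ Lc c := by
    intro h
    obtain ⟨d, hd, h2⟩ := prime_dvd_lc 2 Nat.prime_two _ h
    obtain ⟨p, hp, rfl⟩ := List.mem_map.1 hd
    have h3 := Nat.Coprime.eq_one_of_dvd (hc p hp).symm h2
    omega
  omega

open Classical in
theorem base (F : Finset ℕ) (A E : ℝ) (hA : 0 ≤ A) (hE : 0 ≤ E) (hF : Fam F A E)
    (c : List (ℕ × ℕ)) (hc : ∀ p ∈ c, p.1 % 2 = 1 ∧ 0 < p.2) :
    ((F.filter (fun N : ℕ => Cd c N)).card : ℝ) ≤ A / (Lc c : ℕ) + E := by
  rcases (F.filter (fun N : ℕ => Cd c N)).eq_empty_or_nonempty with h0 | ⟨N0, h0⟩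
  · rw [h0]
    simp only [card_empty, Nat.cast_zero]
    positivity
  rw [mem_filter] at h0
  have hodd := Lc_odd c (fun p hp => dvd_odd p.2 p.1 N0 (hc p hp).1 (h0.2 p hp))
  refine le_trans ?_ (hF (Lc c) (N0 % Lc c) hodd)
  apply Nat.cast_le.2
  apply card_le_card
  intro N hN
  rw [mem_filter] at hN ⊢
  refine ⟨hN.1, ?_⟩
  have h1 := Lc_dvd_diff c (fun p hp => (hc p hp).1) N N0 hN.2 h0.2
  exact (Nat.modEq_iff_dvd.2 h1)

/-- the gcd of the next divisor with the least common multiple of the earlier ones -/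
theorem gcd_info (G : ℕ) (hG : 1 ≤ G) (c : List (ℕ × ℕ)) (n d N0 N1 : ℕ) (hn : n % 2 = 1)
    (hnG : n ≤ G) (hc : ∀ p ∈ c, p.1 < n ∧ p.1 % 2 = 1 ∧ 0 < p.2) (h0 : Cd c N0) (h1 : Cd c N1)
    (hd : (d : ℤ) ∣ 2 * (N1 : ℤ) - n) (hN0 : G < N0) :
    Nat.gcd d (Lc c) ≤ G ^ c.length ∧ (∀ p ∈ (Nat.gcd d (Lc c)).primeFactorsList, p ≤ G) ∧
      Nat.gcd d (Lc c) ∣ 2 * N0 - n := by
  have key : ∀ q ∈ c, ∀ x : ℕ, x ∣ d → x ∣ q.2 → x ≤ G := by
    intro q hq x hx1 hx2
    have a1 : (x : ℤ) ∣ 2 * (N1 : ℤ) - n := (Int.natCast_dvd_natCast.2 hx1).trans hd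
    have a2 : (x : ℤ) ∣ 2 * (N1 : ℤ) - q.1 := (Int.natCast_dvd_natCast.2 hx2).trans (h1 q hq)
    have a3 : (x : ℤ) ∣ ((n : ℤ) - q.1) := by
      have := dvd_sub a2 a1
      have he : 2 * (N1 : ℤ) - q.1 - (2 * (N1 : ℤ) - n) = (n : ℤ) - q.1 := by ring
      rwa [he] at this
    have a4 := (hc q hq).1
    have a5 := Int.le_of_dvd (by omega) a3
    omega
  refine ⟨?_, ?_, ?_⟩
  · have := Crt.gcd_lc_le d G hG (c.map Prod.snd) (by
      intro e he
      obtain ⟨q, hq, rfl⟩ := List.mem_map.1 he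
      exact ⟨(hc q hq).2.2, key q hq _ (Nat.gcd_dvd_left _ _) (Nat.gcd_dvd_right _ _)⟩)
    rw [List.length_map] at this
    exact this
  · intro p hp
    have hp1 := Nat.prime_of_mem_primeFactorsList hp
    have hp2 := Nat.dvd_of_mem_primeFactorsList hp
    obtain ⟨e, he, hpe⟩ := prime_dvd_lc p hp1 _ (hp2.trans (Nat.gcd_dvd_right _ _))
    obtain ⟨q, hq, rfl⟩ := List.mem_map.1 he
    exact key q hq p (hp2.trans (Nat.gcd_dvd_left _ _)) hpe
  · have a1 : ((Nat.gcd d (Lc c) : ℕ) : ℤ) ∣ 2 * (N1 : ℤ) - n :=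
      (Int.natCast_dvd_natCast.2 (Nat.gcd_dvd_left _ _)).trans hd
    have a2 : ((Nat.gcd d (Lc c) : ℕ) : ℤ) ∣ (N1 : ℤ) - N0 :=
      (Int.natCast_dvd_natCast.2 (Nat.gcd_dvd_right _ _)).trans
        (Lc_dvd_diff c (fun p hp => (hc p hp).2.1) N0 N1 h0 h1)
    have a3 := dvd_sub a1 (a2.mul_left 2)
    have e : 2 * (N1 : ℤ) - n - 2 * ((N1 : ℤ) - N0) = ((2 * N0 - n : ℕ) : ℤ) := by
      rw [Nat.cast_sub (by omega)]
      push_cast
      ring
    rw [e] at a3
    exact Int.natCast_dvd_natCast.1 a3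

open Classical in
theorem claim (F₀ : Finset ℕ) (A₀ E : ℝ) (hA₀ : 0 ≤ A₀) (hE : 0 ≤ E) (hF : Fam F₀ A₀ E)
    (G Y T0 Ts D W r : ℕ) (S : Finset ℕ) (hG : 1 ≤ G)
    (hY : 2 ≤ Y) (hT0 : 1 ≤ T0) (hTs : 1 ≤ Ts) (hD : 1 ≤ D)
    (hTY : Ts ^ 2 * Y * G ^ r ≤ T0 * D ^ 2) :
    ∀ (k : ℕ) (c : List (ℕ × ℕ)) (t' : ℕ), c.Pairwise (fun p q => q.1 < p.1) →
    (∀ p ∈ c, p.1 ≤ G ∧ p.1 % 2 = 1 ∧ 0 < p.2) → c.length + k ≤ r → T0 ≤ t' →
    ((F₀.filter (fun N : ℕ => Good G W N ∧ BB G Y Ts D S N k c t')).card : ℝ) ≤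
      A₀ / (Lc c : ℕ) *
        (∏ i ∈ range k, (if i ∈ S then 2 ^ W * (3 * (G : ℝ) ^ 2 * (1 + Real.log Ts)) / Y else
          2 ^ W * (3 * (G : ℝ) ^ 2 * (1 + Real.log Ts)))) + E * (G * (Ts : ℝ) ^ 2) ^ k := by
  have hG' : (1 : ℝ) ≤ G := by exact_mod_cast hG
  have hY' : (2 : ℝ) ≤ Y := by exact_mod_cast hY
  have hTs' : (1 : ℝ) ≤ Ts := by exact_mod_cast hTs
  have hlog : 0 ≤ Real.log Ts := Real.log_nonneg hTs'
  set Q : ℝ := 2 ^ W * (3 * (G : ℝ) ^ 2 * (1 + Real.log Ts)) with hQ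
  have hQ0 : 0 < Q := by positivity
  intro k
  induction k with
  | zero =>
    intro c t' h1 h2 h3 _
    have h4 := base F₀ A₀ E hA₀ hE hF c (fun p hp => (h2 p hp).2)
    have h6 : (((F₀.filter
        (fun N : ℕ => Good G W N ∧ BB G Y Ts D S N 0 c t')).card : ℕ) : ℝ) ≤
        ((F₀.filter (fun N : ℕ => Cd c N)).card : ℝ) := by
      apply Nat.cast_le.2
      apply card_le_card
      intro N hN
      obtain ⟨a1, a2, a3⟩ := mem_filter.1 hN
      exact mem_filter.2 ⟨a1, a3⟩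
    refine h6.trans (h4.trans ?_)
    rw [Finset.prod_range_zero, mul_one, pow_zero, mul_one]
  | succ k ih =>
    intro c t' h1 h2 h3 h4
    set Wk : ℝ := ∏ i ∈ range k, (if i ∈ S then Q / Y else Q) with hW
    have hW0 : 0 ≤ Wk := Finset.prod_nonneg fun i _ => by split_ifs <;> positivity
    set L : ℕ := Lc c with hL
    have hLpos : 0 < L := Lc_pos c (fun p hp => (h2 p hp).2.2)
    have hL0 : (0 : ℝ) < L := by exact_mod_cast hLpos
    set A : ℝ := A₀ / L * Wk with hAd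
    have hA0 : 0 ≤ A := by positivity
    set B : ℝ := E * (G * (Ts : ℝ) ^ 2) ^ k with hBd
    have hB0 : 0 ≤ B := by positivity
    -- an element of the set
    rcases (F₀.filter
      (fun N : ℕ => Good G W N ∧ BB G Y Ts D S N (k + 1) c t')).eq_empty_or_nonempty with he | he
    · rw [he]
      simp only [card_empty, Nat.cast_zero]
      have : 0 ≤ ∏ i ∈ range (k + 1), (if i ∈ S then Q / Y else Q) :=
        Finset.prod_nonneg fun i _ => by split_ifs <;> positivity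
      positivity
    obtain ⟨N0, hN0⟩ := he
    obtain ⟨-, hgood, hbb⟩ := mem_filter.1 hN0
    have hcd0 : Cd c N0 := BB_Cd _ _ _ hbb
    -- the possible gcds
    set Dv : ℕ → Finset ℕ := fun n => ((2 * N0 - n).divisors.filter
      (fun g => ∀ p ∈ g.primeFactorsList, p ≤ G)).filter (fun g => g ≤ G ^ r) with hDv
    have hDvc : ∀ n ∈ ns G c, ((Dv n).card : ℝ) ≤ 2 ^ W := by
      intro n hn
      rw [ns, Finset.mem_filter, Finset.mem_Icc] at hn
      have a1 : (Dv n).card ≤ 2 ^ Om G (2 * N0 - n) :=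
        (card_filter_le _ _).trans (dv_card G (2 * N0 - n) (by have := hgood.1; omega))
      have a2 : 2 ^ Om G (2 * N0 - n) ≤ 2 ^ W :=
        Nat.pow_le_pow_right (by norm_num) (hgood.2 n hn.1.2 hn.2.1).le
      exact_mod_cast a1.trans a2
    set f : ℕ → ℕ → ℝ := fun n d =>
      if Nat.gcd d L ∈ Dv n then ((Nat.gcd d L : ℕ) : ℝ) / d else 0 with hf
    have hf0 : ∀ n d, 0 ≤ f n d := by
      intro n d
      simp only [hf]
      split_ifs <;> positivity
    -- the union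
    have hsub : F₀.filter (fun N : ℕ => Good G W N ∧ BB G Y Ts D S N (k + 1) c t') ⊆
        (ns G c).biUnion fun n => (Icc D Ts).biUnion fun d => (F G Y Ts (k ∈ S) t' d).biUnion
          fun t => F₀.filter
            (fun N : ℕ => Good G W N ∧ BB G Y Ts D S N k ((n, d) :: c) (t + 2 * d)) := by
      intro N hN
      obtain ⟨hN1, hN2, n, hn, d, hd, t, ht, hb⟩ := Finset.mem_filter.1 hN
      rw [Finset.mem_biUnion]
      refine ⟨n, hn, ?_⟩
      rw [Finset.mem_biUnion]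
      refine ⟨d, hd, ?_⟩
      rw [Finset.mem_biUnion]
      exact ⟨t, ht, Finset.mem_filter.2 ⟨hN1, hN2, hb⟩⟩
    have hone : ∀ n ∈ ns G c, ∀ d ∈ Icc D Ts, ∀ t ∈ F G Y Ts (k ∈ S) t' d,
        (((F₀.filter (fun N : ℕ => Good G W N ∧
          BB G Y Ts D S N k ((n, d) :: c) (t + 2 * d))).card : ℕ) : ℝ)
          ≤ A * f n d + B := by
      intro n hn d hd t ht
      have hfn := hf0 n d
      rcases (F₀.filter (fun N : ℕ => Good G W N ∧
          BB G Y Ts D S N k ((n, d) :: c) (t + 2 * d))).eq_empty_or_nonempty with he | he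
      · rw [he]
        simp only [card_empty, Nat.cast_zero]
        positivity
      obtain ⟨N1, hN1⟩ := he
      obtain ⟨-, -, hbb1⟩ := mem_filter.1 hN1
      have hcd1 := BB_Cd _ _ _ hbb1
      rw [ns, Finset.mem_filter, Finset.mem_Icc] at hn
      rw [Finset.mem_Icc] at hd
      have hd0 : 0 < d := by omega
      obtain ⟨g1, g2, g3⟩ := gcd_info G hG c n d N0 N1 hn.2.1 hn.1.2
        (fun p hp => ⟨hn.2.2 p hp, (h2 p hp).2⟩) hcd0
        (fun p hp => hcd1 p (List.mem_cons_of_mem _ hp)) (hcd1 (n, d) (by simp)) hgood.1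
      have hmem : Nat.gcd d L ∈ Dv n := by
        simp only [hDv]
        rw [mem_filter, mem_filter, Nat.mem_divisors]
        refine ⟨⟨⟨g3, ?_⟩, g2⟩, g1.trans (Nat.pow_le_pow_right hG (by omega))⟩
        have := hgood.1
        omega
      have hfe : f n d = ((Nat.gcd d L : ℕ) : ℝ) / d := by
        simp only [hf]
        rw [if_pos hmem]
      have h5 := ih ((n, d) :: c) (t + 2 * d) (List.pairwise_cons.2 ⟨fun p hp => hn.2.2 p hp, h1⟩)
        (by
          intro p hp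
          rcases List.mem_cons.1 hp with rfl | hp
          · exact ⟨hn.1.2, hn.2.1, hd0⟩
          · exact h2 p hp)
        (by simp only [List.length_cons]; omega) (by have := F_ge ht; omega)
      refine h5.trans (le_of_eq ?_)
      have hlc : Lc ((n, d) :: c) = Nat.lcm d L := rfl
      rw [hlc, hfe, hAd]
      have hgl : ((Nat.gcd d L : ℕ) : ℝ) * ((Nat.lcm d L : ℕ) : ℝ) = d * L := by
        exact_mod_cast Nat.gcd_mul_lcm d L
      have hgp : (0 : ℝ) < ((Nat.gcd d L : ℕ) : ℝ) := by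
        exact_mod_cast Nat.gcd_pos_of_pos_left _ hd0
      have hlp : (0 : ℝ) < ((Nat.lcm d L : ℕ) : ℝ) := by
        exact_mod_cast Nat.lcm_pos hd0 hLpos
      have hd1 : (0 : ℝ) < d := by exact_mod_cast hd0
      congr 1
      have e1 : A₀ / ((Nat.lcm d L : ℕ) : ℝ) = A₀ / L * (((Nat.gcd d L : ℕ) : ℝ) / d) := by
        rw [div_mul_div_comm, div_eq_div_iff hlp.ne' (by positivity)]
        calc A₀ * (L * d) = A₀ * (d * L) := by ring
          _ = A₀ * (((Nat.gcd d L : ℕ) : ℝ) * ((Nat.lcm d L : ℕ) : ℝ)) := by rw [hgl]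
          _ = _ := by ring
      rw [e1]
      ring
    have hcard : (((F₀.filter (fun N : ℕ => Good G W N ∧
        BB G Y Ts D S N (k + 1) c t')).card : ℕ) : ℝ) ≤
        ∑ n ∈ ns G c, ∑ d ∈ Icc D Ts, ∑ t ∈ F G Y Ts (k ∈ S) t' d, (A * f n d + B) := by
      calc (((F₀.filter (fun N : ℕ => Good G W N ∧
            BB G Y Ts D S N (k + 1) c t')).card : ℕ) : ℝ)
          ≤ (((ns G c).biUnion fun n => (Icc D Ts).biUnion fun d =>
            (F G Y Ts (k ∈ S) t' d).biUnion fun t => F₀.filter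
              (fun N : ℕ => Good G W N ∧
                BB G Y Ts D S N k ((n, d) :: c) (t + 2 * d))).card : ℝ) := by
            exact_mod_cast Finset.card_le_card hsub
        _ ≤ ∑ n ∈ ns G c, (((Icc D Ts).biUnion fun d =>
            (F G Y Ts (k ∈ S) t' d).biUnion fun t => F₀.filter
              (fun N : ℕ => Good G W N ∧
                BB G Y Ts D S N k ((n, d) :: c) (t + 2 * d))).card : ℝ) := by
            exact_mod_cast Finset.card_biUnion_le
        _ ≤ ∑ n ∈ ns G c, ∑ d ∈ Icc D Ts, (((F G Y Ts (k ∈ S) t' d).biUnion fun t =>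
            F₀.filter
              (fun N : ℕ => Good G W N ∧
                BB G Y Ts D S N k ((n, d) :: c) (t + 2 * d))).card : ℝ) := by
            refine Finset.sum_le_sum fun n _ => ?_
            exact_mod_cast Finset.card_biUnion_le
        _ ≤ ∑ n ∈ ns G c, ∑ d ∈ Icc D Ts, ∑ t ∈ F G Y Ts (k ∈ S) t' d, (((F₀.filter
              (fun N : ℕ => Good G W N ∧
                BB G Y Ts D S N k ((n, d) :: c) (t + 2 * d))).card : ℕ) : ℝ) := by
            refine Finset.sum_le_sum fun n _ => Finset.sum_le_sum fun d _ => ?_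
            exact_mod_cast Finset.card_biUnion_le
        _ ≤ _ := Finset.sum_le_sum fun n hn => Finset.sum_le_sum fun d hd =>
            Finset.sum_le_sum fun t ht => hone n hn d hd t ht
    refine hcard.trans ?_
    -- the weights
    have hwt : ∀ n ∈ ns G c, (G : ℝ) * ∑ d ∈ Icc D Ts, ∑ _t ∈ F G Y Ts (k ∈ S) t' d, f n d ≤
        if k ∈ S then Q / Y else Q := by
      intro n hn
      set wt : ℝ := if k ∈ S then 3 * (1 + Real.log Ts) / Y else 3 * G * (1 + Real.log Ts) with hwtd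
      have hwt0 : 0 ≤ wt := by
        rw [hwtd]
        split_ifs <;> positivity
      have hg : ∀ g ∈ Dv n, ∑ d ∈ (Icc D Ts).filter (fun d => g ∣ d),
          ∑ _t ∈ F G Y Ts (k ∈ S) t' d, ((g : ℝ) / d) ≤ wt := by
        intro g hg
        simp only [hDv] at hg
        rw [mem_filter, mem_filter, Nat.mem_divisors] at hg
        have hg1 : 1 ≤ g := by
          rcases Nat.eq_zero_or_pos g with h | h
          · rw [h] at hg
            exact absurd (zero_dvd_iff.1 hg.1.1.1) hg.1.1.2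
          · exact h
        unfold F
        by_cases hk : k ∈ S
        · simp only [hk, if_true, hwtd]
          apply wB D T0 Ts Y t' g hD hY hT0 h4 hg1
          calc Ts ^ 2 * Y * g ≤ Ts ^ 2 * Y * G ^ r := Nat.mul_le_mul_left _ hg.2
            _ ≤ T0 * D ^ 2 := hTY
        · simp only [hk, if_false, hwtd]
          exact wA D Ts G t' g hD hG hg1
      have hfle : ∀ d ∈ Icc D Ts, f n d ≤ ∑ g ∈ Dv n, (if g ∣ d then (g : ℝ) / d else 0) := by
        intro d hd
        simp only [hf]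
        split_ifs with hm
        · have h7 := Finset.single_le_sum (s := Dv n)
            (f := fun g : ℕ => (if g ∣ d then (g : ℝ) / d else 0))
            (fun g _ => by split_ifs <;> positivity) hm
          have h8 : (if Nat.gcd d L ∣ d then ((Nat.gcd d L : ℕ) : ℝ) / d else 0) =
              ((Nat.gcd d L : ℕ) : ℝ) / d := if_pos (Nat.gcd_dvd_left _ _)
          simp only [h8] at h7
          exact h7
        · exact Finset.sum_nonneg fun g _ => by split_ifs <;> positivity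
      have h9 : ∑ d ∈ Icc D Ts, ∑ _t ∈ F G Y Ts (k ∈ S) t' d, f n d ≤
          ∑ g ∈ Dv n, ∑ d ∈ (Icc D Ts).filter (fun d => g ∣ d),
            ∑ _t ∈ F G Y Ts (k ∈ S) t' d, ((g : ℝ) / d) := by
        calc ∑ d ∈ Icc D Ts, ∑ _t ∈ F G Y Ts (k ∈ S) t' d, f n d
            ≤ ∑ d ∈ Icc D Ts, ∑ _t ∈ F G Y Ts (k ∈ S) t' d,
              ∑ g ∈ Dv n, (if g ∣ d then (g : ℝ) / d else 0) :=
              Finset.sum_le_sum fun d hd => Finset.sum_le_sum fun t _ => hfle d hd
          _ = ∑ d ∈ Icc D Ts, ∑ g ∈ Dv n, ∑ _t ∈ F G Y Ts (k ∈ S) t' d,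
              (if g ∣ d then (g : ℝ) / d else 0) :=
              Finset.sum_congr rfl fun d _ => Finset.sum_comm
          _ = ∑ g ∈ Dv n, ∑ d ∈ Icc D Ts, ∑ _t ∈ F G Y Ts (k ∈ S) t' d,
              (if g ∣ d then (g : ℝ) / d else 0) := Finset.sum_comm
          _ = _ := by
              refine Finset.sum_congr rfl fun g _ => ?_
              rw [Finset.sum_filter]
              refine Finset.sum_congr rfl fun d _ => ?_
              by_cases hgd : g ∣ d
              · simp [hgd]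
              · simp [hgd]
      have h10 : ∑ d ∈ Icc D Ts, ∑ _t ∈ F G Y Ts (k ∈ S) t' d, f n d ≤ 2 ^ W * wt := by
        refine h9.trans ((Finset.sum_le_sum hg).trans ?_)
        rw [Finset.sum_const, nsmul_eq_mul]
        exact mul_le_mul_of_nonneg_right (hDvc n hn) hwt0
      calc (G : ℝ) * ∑ d ∈ Icc D Ts, ∑ _t ∈ F G Y Ts (k ∈ S) t' d, f n d
          ≤ G * (2 ^ W * wt) := mul_le_mul_of_nonneg_left h10 (by linarith)
        _ ≤ if k ∈ S then Q / Y else Q := by
          rw [hwtd, hQ]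
          split_ifs
          · have h11 : (G : ℝ) ≤ (G : ℝ) ^ 2 := by nlinarith
            have h12 : 0 ≤ (2 : ℝ) ^ W * (3 * (1 + Real.log Ts) / Y) := by positivity
            calc (G : ℝ) * (2 ^ W * (3 * (1 + Real.log Ts) / Y))
                ≤ (G : ℝ) ^ 2 * (2 ^ W * (3 * (1 + Real.log Ts) / Y)) :=
                  mul_le_mul_of_nonneg_right h11 h12
              _ = _ := by ring
          · apply le_of_eq
            ring
    have hn : ((ns G c).card : ℝ) ≤ G := by exact_mod_cast ns_card G c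
    have hin : ∀ n ∈ ns G c, (G : ℝ) * ∑ d ∈ Icc D Ts, ∑ _t ∈ F G Y Ts (k ∈ S) t' d,
        (A * f n d + B) ≤ A * (if k ∈ S then Q / Y else Q) + B * (G * (Ts : ℝ) ^ 2) := by
      intro n hn
      have e1 : ∑ d ∈ Icc D Ts, ∑ _t ∈ F G Y Ts (k ∈ S) t' d, (A * f n d + B) =
          A * (∑ d ∈ Icc D Ts, ∑ _t ∈ F G Y Ts (k ∈ S) t' d, f n d) +
            ∑ d ∈ Icc D Ts, ((F G Y Ts (k ∈ S) t' d).card : ℝ) * B := by
        rw [Finset.mul_sum, ← Finset.sum_add_distrib]
        refine Finset.sum_congr rfl fun d _ => ?_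
        rw [Finset.sum_add_distrib, Finset.mul_sum]
        congr 1
        rw [Finset.sum_const, nsmul_eq_mul]
      have e2 : ∑ d ∈ Icc D Ts, ((F G Y Ts (k ∈ S) t' d).card : ℝ) * B ≤ B * (Ts : ℝ) ^ 2 := by
        calc ∑ d ∈ Icc D Ts, ((F G Y Ts (k ∈ S) t' d).card : ℝ) * B
            ≤ ∑ d ∈ Icc D Ts, (Ts : ℝ) * B := by
              refine Finset.sum_le_sum fun d _ => ?_
              have : ((F G Y Ts (k ∈ S) t' d).card : ℝ) ≤ Ts := by exact_mod_cast F_card _ _ _ _ _ _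
              exact mul_le_mul_of_nonneg_right this hB0
          _ = ((Icc D Ts).card : ℝ) * ((Ts : ℝ) * B) := by rw [Finset.sum_const, nsmul_eq_mul]
          _ ≤ (Ts : ℝ) * ((Ts : ℝ) * B) := by
              have h8 : ((Icc D Ts).card : ℝ) ≤ Ts := by
                have : (Icc D Ts).card ≤ Ts := by rw [Nat.card_Icc]; omega
                exact_mod_cast this
              exact mul_le_mul_of_nonneg_right h8 (by positivity)
          _ = B * (Ts : ℝ) ^ 2 := by ring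
      have e3 := mul_le_mul_of_nonneg_left (hwt n hn) hA0
      rw [e1, mul_add]
      have e4 : (G : ℝ) * ∑ d ∈ Icc D Ts, ((F G Y Ts (k ∈ S) t' d).card : ℝ) * B ≤
          B * (G * (Ts : ℝ) ^ 2) := by
        calc (G : ℝ) * ∑ d ∈ Icc D Ts, ((F G Y Ts (k ∈ S) t' d).card : ℝ) * B
            ≤ G * (B * (Ts : ℝ) ^ 2) := mul_le_mul_of_nonneg_left e2 (by linarith)
          _ = _ := by ring
      have e5 : (G : ℝ) * (A * ∑ d ∈ Icc D Ts, ∑ _t ∈ F G Y Ts (k ∈ S) t' d, f n d) =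
          A * (G * ∑ d ∈ Icc D Ts, ∑ _t ∈ F G Y Ts (k ∈ S) t' d, f n d) := by ring
      rw [e5]
      exact add_le_add e3 e4
    set R : ℝ := A * (if k ∈ S then Q / Y else Q) + B * (G * (Ts : ℝ) ^ 2) with hR
    have hR0 : 0 ≤ R := by
      rw [hR]
      have : 0 ≤ (if k ∈ S then Q / Y else Q) := by split_ifs <;> positivity
      positivity
    have hGpos : (0 : ℝ) < G := by linarith
    calc ∑ n ∈ ns G c, ∑ d ∈ Icc D Ts, ∑ t ∈ F G Y Ts (k ∈ S) t' d, (A * f n d + B)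
        ≤ ∑ _n ∈ ns G c, R / G := Finset.sum_le_sum fun n hn => by
          rw [le_div_iff₀ hGpos, mul_comm]
          exact hin n hn
      _ = ((ns G c).card : ℝ) * (R / G) := by rw [Finset.sum_const, nsmul_eq_mul]
      _ ≤ (G : ℝ) * (R / G) := mul_le_mul_of_nonneg_right hn (by positivity)
      _ = R := by field_simp
      _ = _ := by
          rw [Finset.prod_range_succ, hR, hAd, hBd, pow_succ]
          ring

end Pool.Agent.H10.GB
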