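import Pool.Agent.H10.GB.Clm

/-!
# The number of good `N` with a bad run
-/

set_option autoImplicit false

namespace Pool.Agent.H10.GB

open Finset Pool.Agent.N333.GR Pool.Agent.N333.GR.Cnt

open Classical in
/-- the number of good `N ≤ X` with a bad run of length `2 b` at the level `D` -/
theorem cntG (F₀ : Finset ℕ) (A₀ E : ℝ) (hA₀ : 0 ≤ A₀) (hE : 0 ≤ E) (hF : Fam F₀ A₀ E)
    (G Y T0 Ts D b W : ℕ) (hG : 1 ≤ G) (hY : 2 ≤ Y) (hT0 : 1 ≤ T0) (hTs : 1 ≤ Ts)
    (hD : 1 ≤ D) (hb : 1 ≤ b) (hTY : Ts ^ 2 * Y * G ^ (2 * b) ≤ T0 * D ^ 2) :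
    ((F₀.filter
      (fun N : ℕ => Good G W N ∧ BadRun G Y T0 Ts D (2 * b) N)).card : ℝ) ≤
      4 ^ b * (A₀ * (G * (Ts : ℝ) ^ 2) *
        (2 ^ W * (3 * (G : ℝ) ^ 2 * (1 + Real.log Ts))) ^ (2 * b) / (Y : ℝ) ^ b +
        E * (G * (Ts : ℝ) ^ 2) ^ (2 * b)) := by
  have hG' : (1 : ℝ) ≤ G := by exact_mod_cast hG
  have hY' : (2 : ℝ) ≤ Y := by exact_mod_cast hY
  have hTs' : (1 : ℝ) ≤ Ts := by exact_mod_cast hTs
  have hlog : 0 ≤ Real.log Ts := Real.log_nonneg hTs'
  set Q : ℝ := 2 ^ W * (3 * (G : ℝ) ^ 2 * (1 + Real.log Ts)) with hQ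
  have hQ1 : 1 ≤ Q := by
    rw [hQ]
    have h1 : (1 : ℝ) ≤ 2 ^ W := one_le_pow₀ (by norm_num)
    have h2 : (1 : ℝ) ≤ 3 * (G : ℝ) ^ 2 * (1 + Real.log Ts) := by
      nlinarith [one_le_pow₀ (n := 2) hG']
    nlinarith
  have hQ0 : 0 < Q := by linarith
  set PP : Finset (Finset ℕ) := ((range (2 * b - 1)).powerset).filter (fun S => b ≤ S.card) with hPP
  have hsub : F₀.filter (fun N : ℕ => Good G W N ∧ BadRun G Y T0 Ts D (2 * b) N) ⊆
      PP.biUnion fun S => (ns G []).biUnion fun n0 => (Icc D Ts).biUnion fun d0 =>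
        (Icc T0 Ts).biUnion fun t0 => F₀.filter
          (fun N : ℕ => Good G W N ∧ BB G Y Ts D S N (2 * b - 1) [(n0, d0)] (t0 + 2 * d0)) := by
    intro N hN
    obtain ⟨hN1, hN2, n, t, d, h1, h2, h3⟩ := Finset.mem_filter.1 hN
    set S : Finset ℕ := (range (2 * b - 1)).filter (fun k =>
      Y * (t (2 * b - 1 - 1 - k + 1) - (t (2 * b - 1 - 1 - k) + 2 * d (2 * b - 1 - 1 - k))) <
        d (2 * b - 1 - 1 - k + 1)) with hS
    have hSc : b ≤ S.card := by
      have e1 : S.card = ((range (2 * b - 1)).filter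
          (fun i => Y * (t (i + 1) - (t i + 2 * d i)) < d (i + 1))).card := by
        rw [hS, Finset.card_filter, Finset.card_filter]
        exact Finset.sum_range_reflect (fun i => if Y * (t (i + 1) - (t i + 2 * d i)) < d (i + 1)
          then 1 else 0) (2 * b - 1)
      have e2 : 2 * b ≤ 2 * ((range (2 * b - 1)).filter
          (fun i => Y * (t (i + 1) - (t i + 2 * d i)) < d (i + 1))).card := by
        convert h3
      omega
    rw [Finset.mem_biUnion]
    refine ⟨S, Finset.mem_filter.2 ⟨Finset.mem_powerset.2 (Finset.filter_subset _ _), hSc⟩, ?_⟩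
    obtain ⟨a1, a2, a3, a4, a5, a6, a7⟩ := h1 0 (by omega)
    rw [Finset.mem_biUnion]
    refine ⟨n 0, ?_, ?_⟩
    · rw [ns, Finset.mem_filter, Finset.mem_Icc]
      exact ⟨⟨by omega, a1⟩, a2, by simp⟩
    rw [Finset.mem_biUnion]
    refine ⟨d 0, ?_, ?_⟩
    · rw [Finset.mem_Icc]
      exact ⟨a5, (Nat.le_of_dvd (by omega) a6).trans a4⟩
    rw [Finset.mem_biUnion]
    refine ⟨t 0, Finset.mem_Icc.2 ⟨a3, a4⟩, Finset.mem_filter.2 ⟨hN1, hN2, ?_⟩⟩
    refine run_BB hT0 h1 h2 ?_ (2 * b - 1) 0 [(n 0, d 0)] (by omega) (by simp) ?_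
    · intro i k hik hk
      have := (Finset.mem_filter.1 hk).2
      have e : 2 * b - 1 - 1 - k = i := by omega
      rw [e] at this
      exact this
    · intro p hp
      rw [List.mem_singleton] at hp
      subst hp
      exact a7
  set Z : ℝ := A₀ * Q ^ (2 * b) / (Y : ℝ) ^ b +
    E * (G * (Ts : ℝ) ^ 2) ^ (2 * b - 1) with hZ
  have hZ0 : 0 ≤ Z := by positivity
  have hone : ∀ S ∈ PP, ∀ n0 ∈ ns G [], ∀ d0 ∈ Icc D Ts, ∀ t0 ∈ Icc T0 Ts,
      (((F₀.filter (fun N : ℕ => Good G W N ∧ BB G Y Ts D S N (2 * b - 1) [(n0, d0)]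
        (t0 + 2 * d0))).card : ℕ) : ℝ) ≤ Z := by
    intro S hS n0 hn0 d0 hd0 t0 ht0
    rw [hPP, Finset.mem_filter, Finset.mem_powerset] at hS
    rw [ns, Finset.mem_filter, Finset.mem_Icc] at hn0
    rw [Finset.mem_Icc] at hd0 ht0
    have hd00 : 0 < d0 := by omega
    have h1 := claim F₀ A₀ E hA₀ hE hF G Y T0 Ts D W (2 * b) S hG hY hT0 hTs hD hTY (2 * b - 1) [(n0, d0)]
      (t0 + 2 * d0) (List.pairwise_singleton _ _) (by
        intro p hp
        rw [List.mem_singleton] at hp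
        subst hp
        exact ⟨hn0.1.2, hn0.2.1, hd00⟩) (by simp only [List.length_singleton]; omega) (by omega)
    refine h1.trans ?_
    rw [hZ]
    have h2 : ∏ i ∈ range (2 * b - 1), (if i ∈ S then 2 ^ W * (3 * (G : ℝ) ^ 2 * (1 + Real.log Ts)) / Y else
        2 ^ W * (3 * (G : ℝ) ^ 2 * (1 + Real.log Ts))) ≤ Q ^ (2 * b) / (Y : ℝ) ^ b := by
      have e1 : ∏ i ∈ range (2 * b - 1), (if i ∈ S then 2 ^ W * (3 * (G : ℝ) ^ 2 * (1 + Real.log Ts)) / Y else
          2 ^ W * (3 * (G : ℝ) ^ 2 * (1 + Real.log Ts))) =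
          ∏ i ∈ range (2 * b - 1), (Q * (if i ∈ S then (1 / (Y : ℝ)) else 1)) := by
        refine Finset.prod_congr rfl fun i _ => ?_
        split_ifs
        · rw [← hQ]; ring
        · rw [← hQ]; ring
      have e2 : ∏ i ∈ range (2 * b - 1), (if i ∈ S then (1 / (Y : ℝ)) else 1) =
          (1 / (Y : ℝ)) ^ S.card := by
        rw [Finset.prod_ite_mem, Finset.inter_eq_right.2 hS.1, Finset.prod_const]
      rw [e1, Finset.prod_mul_distrib, Finset.prod_const, Finset.card_range, e2]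
      have e3 : Q ^ (2 * b - 1) ≤ Q ^ (2 * b) := pow_le_pow_right₀ hQ1 (by omega)
      have e4 : (1 / (Y : ℝ)) ^ S.card ≤ (1 / (Y : ℝ)) ^ b :=
        pow_le_pow_of_le_one (by positivity) (by rw [div_le_one (by linarith)]; linarith) hS.2
      calc Q ^ (2 * b - 1) * (1 / (Y : ℝ)) ^ S.card ≤ Q ^ (2 * b) * (1 / (Y : ℝ)) ^ b :=
            mul_le_mul e3 e4 (by positivity) (by positivity)
        _ = _ := by rw [one_div, inv_pow, div_eq_mul_inv]
    have h3 : A₀ /
        (Lc [(n0, d0)] : ℕ) ≤ A₀ := by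
      apply div_le_self (by positivity)
      have : 0 < Lc [(n0, d0)] := Lc_pos _ (by
        intro p hp
        rw [List.mem_singleton] at hp
        subst hp
        exact hd00)
      exact_mod_cast this
    have h4 := mul_le_mul h3 h2 (Finset.prod_nonneg fun i _ => by split_ifs <;> positivity)
      (by positivity)
    have h5 : A₀ * (Q ^ (2 * b) / (Y : ℝ) ^ b) =
        A₀ * Q ^ (2 * b) / (Y : ℝ) ^ b := by ring
    linarith
  have hPPc : (PP.card : ℝ) ≤ 4 ^ b := by
    have h1 : PP.card ≤ 2 ^ (2 * b - 1) := by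
      refine (Finset.card_filter_le _ _).trans ?_
      rw [Finset.card_powerset, Finset.card_range]
    have h2 : 2 ^ (2 * b - 1) ≤ 4 ^ b := by
      calc 2 ^ (2 * b - 1) ≤ 2 ^ (2 * b) := Nat.pow_le_pow_right (by norm_num) (by omega)
        _ = 4 ^ b := by rw [pow_mul]; norm_num
    exact_mod_cast h1.trans h2
  have hnc : ((ns G []).card : ℝ) ≤ G := by exact_mod_cast ns_card G []
  have hdc : ((Icc D Ts).card : ℝ) ≤ Ts := by
    have : (Icc D Ts).card ≤ Ts := by rw [Nat.card_Icc]; omega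
    exact_mod_cast this
  have htc : ((Icc T0 Ts).card : ℝ) ≤ Ts := by
    have : (Icc T0 Ts).card ≤ Ts := by rw [Nat.card_Icc]; omega
    exact_mod_cast this
  have hmain : (((F₀.filter (fun N : ℕ => Good G W N ∧ BadRun G Y T0 Ts D (2 * b) N)).card : ℕ) : ℝ) ≤
      4 ^ b * ((G : ℝ) * ((Ts : ℝ) * ((Ts : ℝ) * Z))) := by
    calc (((F₀.filter (fun N : ℕ => Good G W N ∧ BadRun G Y T0 Ts D (2 * b) N)).card : ℕ) : ℝ)
        ≤ ((PP.biUnion fun S => (ns G []).biUnion fun n0 => (Icc D Ts).biUnion fun d0 =>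
          (Icc T0 Ts).biUnion fun t0 => F₀.filter
          (fun N : ℕ => Good G W N ∧ BB G Y Ts D S N (2 * b - 1) [(n0, d0)] (t0 + 2 * d0))).card : ℝ) := by
          exact_mod_cast Finset.card_le_card hsub
      _ ≤ ∑ S ∈ PP, (((ns G []).biUnion fun n0 => (Icc D Ts).biUnion fun d0 =>
          (Icc T0 Ts).biUnion fun t0 => F₀.filter
          (fun N : ℕ => Good G W N ∧ BB G Y Ts D S N (2 * b - 1) [(n0, d0)] (t0 + 2 * d0))).card : ℝ) := by
          exact_mod_cast Finset.card_biUnion_le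
      _ ≤ ∑ S ∈ PP, ((G : ℝ) * ((Ts : ℝ) * ((Ts : ℝ) * Z))) := by
          refine Finset.sum_le_sum fun S hS => ?_
          calc (((ns G []).biUnion fun n0 => (Icc D Ts).biUnion fun d0 =>
              (Icc T0 Ts).biUnion fun t0 => F₀.filter
              (fun N : ℕ => Good G W N ∧ BB G Y Ts D S N (2 * b - 1) [(n0, d0)] (t0 + 2 * d0))).card : ℝ)
              ≤ ∑ n0 ∈ ns G [], (((Icc D Ts).biUnion fun d0 =>
              (Icc T0 Ts).biUnion fun t0 => F₀.filter
              (fun N : ℕ => Good G W N ∧ BB G Y Ts D S N (2 * b - 1) [(n0, d0)] (t0 + 2 * d0))).card : ℝ) := by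
                exact_mod_cast Finset.card_biUnion_le
            _ ≤ ∑ n0 ∈ ns G [], ((Ts : ℝ) * ((Ts : ℝ) * Z)) := by
                refine Finset.sum_le_sum fun n0 hn0 => ?_
                calc (((Icc D Ts).biUnion fun d0 =>
                    (Icc T0 Ts).biUnion fun t0 => F₀.filter
                    (fun N : ℕ => Good G W N ∧ BB G Y Ts D S N (2 * b - 1) [(n0, d0)] (t0 + 2 * d0))).card : ℝ)
                    ≤ ∑ d0 ∈ Icc D Ts, (((Icc T0 Ts).biUnion fun t0 => F₀.filter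
                    (fun N : ℕ => Good G W N ∧ BB G Y Ts D S N (2 * b - 1) [(n0, d0)]
                      (t0 + 2 * d0))).card : ℝ) := by
                      exact_mod_cast Finset.card_biUnion_le
                  _ ≤ ∑ d0 ∈ Icc D Ts, ((Ts : ℝ) * Z) := by
                      refine Finset.sum_le_sum fun d0 hd0 => ?_
                      calc (((Icc T0 Ts).biUnion fun t0 => F₀.filter
                          (fun N : ℕ => Good G W N ∧ BB G Y Ts D S N (2 * b - 1) [(n0, d0)]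
                            (t0 + 2 * d0))).card : ℝ)
                          ≤ ∑ t0 ∈ Icc T0 Ts, (((F₀.filter
                          (fun N : ℕ => Good G W N ∧ BB G Y Ts D S N (2 * b - 1) [(n0, d0)]
                            (t0 + 2 * d0))).card : ℕ) : ℝ) := by
                            exact_mod_cast Finset.card_biUnion_le
                        _ ≤ ∑ t0 ∈ Icc T0 Ts, Z := Finset.sum_le_sum fun t0 ht0 =>
                            hone S hS n0 hn0 d0 hd0 t0 ht0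
                        _ = ((Icc T0 Ts).card : ℝ) * Z := by rw [Finset.sum_const, nsmul_eq_mul]
                        _ ≤ (Ts : ℝ) * Z := mul_le_mul_of_nonneg_right htc hZ0
                  _ = ((Icc D Ts).card : ℝ) * ((Ts : ℝ) * Z) := by
                      rw [Finset.sum_const, nsmul_eq_mul]
                  _ ≤ (Ts : ℝ) * ((Ts : ℝ) * Z) := mul_le_mul_of_nonneg_right hdc (by positivity)
            _ = ((ns G []).card : ℝ) * ((Ts : ℝ) * ((Ts : ℝ) * Z)) := by
                rw [Finset.sum_const, nsmul_eq_mul]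
            _ ≤ (G : ℝ) * ((Ts : ℝ) * ((Ts : ℝ) * Z)) :=
                mul_le_mul_of_nonneg_right hnc (by positivity)
      _ = (PP.card : ℝ) * ((G : ℝ) * ((Ts : ℝ) * ((Ts : ℝ) * Z))) := by
          rw [Finset.sum_const, nsmul_eq_mul]
      _ ≤ 4 ^ b * ((G : ℝ) * ((Ts : ℝ) * ((Ts : ℝ) * Z))) :=
          mul_le_mul_of_nonneg_right hPPc (by positivity)
  refine hmain.trans (le_of_eq ?_)
  have hp : (G * (Ts : ℝ) ^ 2) ^ (2 * b) = (G * (Ts : ℝ) ^ 2) ^ (2 * b - 1) * (G * (Ts : ℝ) ^ 2) := by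
    rw [← pow_succ]
    congr 1
    omega
  rw [hp, hZ]
  ring

end Pool.Agent.H10.GB
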