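import Pool.Agent.H10.GB.Prm

/-!
# Almost all `N` have a slow descent: exponent `1 / 3`
-/

set_option autoImplicit false

namespace Pool.Agent.H10.GB

open Finset Filter Topology Pool.Agent.N333.GR

open Classical in
theorem main1 (hREC : S_REC) (hBIG : S_BIG) (hRUN : S_RUN) (F₀ : Finset ℕ) (A₀ E : ℝ)
    (hA₀ : 0 ≤ A₀) (hE : 0 ≤ E) (hF : Fam F₀ A₀ E) (hF3 : ∀ N ∈ F₀, 3 ≤ N) (h w : ℕ)
    (hh : 1 ≤ h) (hw : h ≤ w) (hw40 : 40 ≤ w) :
    ((F₀.filter (fun N : ℕ => ¬ (2 ^ h < g N ∧ ∀ n, 1 ≤ n → n ≤ 2 ^ h →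
      (N : ℤ) - 2 ^ (8 * mm h * uu h w) ≤ a N n))).card : ℝ) ≤
      2 ^ (8 * mm h * uu h w) + 2 ^ h * (A₀ * 2 ^ h / 2 ^ (20 * w) + E * (2 ^ h) ^ (20 * w)) +
      6 * h * (A₀ / 2 ^ (100 * mm h * w) + E * 2 ^ (21000000 * (h ^ 2 * w))) := by
  have hsub : F₀.filter (fun N : ℕ => ¬ (2 ^ h < g N ∧ ∀ n, 1 ≤ n → n ≤ 2 ^ h →
      (N : ℤ) - 2 ^ (8 * mm h * uu h w) ≤ a N n)) ⊆ range (2 ^ (8 * mm h * uu h w)) ∪
      (F₀.filter (fun N : ℕ => 2 ^ h < N ∧ ¬ Good (2 ^ h) (20 * w) N) ∪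
      (range (6 * h)).biUnion (fun k => F₀.filter (fun N : ℕ => Good (2 ^ h) (20 * w) N ∧
        BadRun (2 ^ h) (2 ^ (yy w)) (2 ^ (7 * mm h * uu h w)) (2 ^ (8 * mm h * uu h w))
          (2 ^ ((7 * mm h - 2 - k) * uu h w)) (64 * mm h) N))) := by
    intro N hN
    rw [mem_filter] at hN
    rw [mem_union, mem_range, mem_union]
    by_cases h1 : N < 2 ^ (8 * mm h * uu h w)
    · exact Or.inl h1
    · right
      push Not at h1
      have hGN : 2 ^ h < N := by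
        refine lt_of_lt_of_le (Nat.pow_lt_pow_right (by norm_num) ?_) h1
        have : 1 ≤ mm h := by unfold mm; omega
        have h2 : h < uu h w := by unfold uu; omega
        nlinarith
      by_cases hgd : Good (2 ^ h) (20 * w) N
      · right
        obtain ⟨k, hk, hk2⟩ := exc_sub hREC hBIG hRUN h w N hh hw (hF3 N hN.1) h1 hN.2
        rw [mem_biUnion]
        refine ⟨k, mem_range.2 hk, ?_⟩
        rw [mem_filter]
        exact ⟨hN.1, hgd, hk2⟩
      · left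
        rw [mem_filter]
        exact ⟨hN.1, hGN, hgd⟩
  have h1 := (card_le_card hsub).trans ((card_union_le _ _).trans
    (Nat.add_le_add_left (card_union_le _ _) _))
  rw [card_range] at h1
  have h2 := card_biUnion_le (s := range (6 * h)) (t := fun k => F₀.filter (fun N : ℕ =>
        Good (2 ^ h) (20 * w) N ∧
        BadRun (2 ^ h) (2 ^ (yy w)) (2 ^ (7 * mm h * uu h w)) (2 ^ (8 * mm h * uu h w))
          (2 ^ ((7 * mm h - 2 - k) * uu h w)) (64 * mm h) N))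
  have h3 : (((∑ k ∈ range (6 * h), (F₀.filter (fun N : ℕ =>
        Good (2 ^ h) (20 * w) N ∧
        BadRun (2 ^ h) (2 ^ (yy w)) (2 ^ (7 * mm h * uu h w)) (2 ^ (8 * mm h * uu h w))
          (2 ^ ((7 * mm h - 2 - k) * uu h w)) (64 * mm h) N)).card : ℕ)) : ℝ) ≤
      6 * h * (A₀ / 2 ^ (100 * mm h * w) + E * 2 ^ (21000000 * (h ^ 2 * w))) := by
    rw [Nat.cast_sum]
    calc _ ≤ ∑ k ∈ range (6 * h), (A₀ / 2 ^ (100 * mm h * w) +
          E * 2 ^ (21000000 * (h ^ 2 * w))) := by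
          apply sum_le_sum
          intro k hk
          exact cnt_bound F₀ A₀ E hA₀ hE hF h w k hh hw hw40 (mem_range.1 hk)
      _ = 6 * h * (A₀ / 2 ^ (100 * mm h * w) + E * 2 ^ (21000000 * (h ^ 2 * w))) := by
          rw [sum_const, card_range, nsmul_eq_mul]
          push_cast
          ring
  have hb := bad_count F₀ A₀ E hA₀ hE hF (2 ^ h) (20 * w) Nat.one_le_two_pow
  have h5 : ((F₀.filter (fun N : ℕ => ¬ (2 ^ h < g N ∧ ∀ n, 1 ≤ n → n ≤ 2 ^ h →
      (N : ℤ) - 2 ^ (8 * mm h * uu h w) ≤ a N n))).card : ℝ) ≤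
      ((2 ^ (8 * mm h * uu h w) : ℕ) : ℝ) +
      (((F₀.filter (fun N : ℕ => 2 ^ h < N ∧ ¬ Good (2 ^ h) (20 * w) N)).card : ℕ) : ℝ) +
      ((∑ k ∈ range (6 * h), (F₀.filter (fun N : ℕ => Good (2 ^ h) (20 * w) N ∧
        BadRun (2 ^ h) (2 ^ (yy w)) (2 ^ (7 * mm h * uu h w)) (2 ^ (8 * mm h * uu h w))
          (2 ^ ((7 * mm h - 2 - k) * uu h w)) (64 * mm h) N)).card : ℕ) : ℝ) := by
    rw [add_assoc]
    have := h1.trans (Nat.add_le_add_left (Nat.add_le_add_left h2 _) _)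
    exact_mod_cast this
  refine h5.trans ?_
  push_cast at h3 hb ⊢
  linarith

theorem six_le (w : ℕ) (hw40 : 40 ≤ w) : 6 * w ≤ 2 ^ w := by
  induction w, hw40 using Nat.le_induction with
  | base => norm_num
  | succ n hn ih =>
    calc 6 * (n + 1) ≤ 2 * (6 * n) := by omega
      _ ≤ 2 * 2 ^ n := by gcongr
      _ = 2 ^ (n + 1) := by ring

open Classical in
/-- the general form -/
theorem main2 (hREC : S_REC) (hBIG : S_BIG) (hRUN : S_RUN) (F₀ : Finset ℕ) (A₀ E : ℝ)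
    (hA₀ : 0 ≤ A₀) (hE : 1 ≤ E) (hF : Fam F₀ A₀ E) (hF3 : ∀ N ∈ F₀, 3 ≤ N) (h w : ℕ)
    (hh : 1 ≤ h) (hw : h ≤ w) (hw40 : 40 ≤ w) :
    ((F₀.filter (fun N : ℕ => ¬ (2 ^ h < g N ∧ ∀ n, 1 ≤ n → n ≤ 2 ^ h →
      (N : ℤ) - 2 ^ (30000000 * (h * w)) ≤ a N n))).card : ℝ) ≤
      A₀ / 2 ^ w + E * 2 ^ (30000000 * (h ^ 2 * w)) := by
  have hexp := mu_le h w hh hw
  have hm2 := mm_ge h
  have h23 : h * w ≤ h ^ 2 * w := by
    have : h ^ 1 ≤ h ^ 2 := Nat.pow_le_pow_right hh (by norm_num)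
    rw [pow_one] at this
    exact Nat.mul_le_mul_right _ this
  have h12 : w ≤ h * w := Nat.le_mul_of_pos_left _ (by omega)
  have hE0 : 0 ≤ E := by linarith
  have h1 := main1 hREC hBIG hRUN F₀ A₀ E hA₀ hE0 hF hF3 h w hh hw hw40
  have hle : ((F₀.filter (fun N : ℕ => ¬ (2 ^ h < g N ∧ ∀ n, 1 ≤ n → n ≤ 2 ^ h →
      (N : ℤ) - 2 ^ (30000000 * (h * w)) ≤ a N n))).card : ℝ) ≤
      ((F₀.filter (fun N : ℕ => ¬ (2 ^ h < g N ∧ ∀ n, 1 ≤ n → n ≤ 2 ^ h →
      (N : ℤ) - 2 ^ (8 * mm h * uu h w) ≤ a N n))).card : ℝ) := by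
    refine Nat.cast_le.2 (card_le_card ?_)
    intro N hN
    rw [mem_filter] at hN ⊢
    refine ⟨hN.1, fun hcon => hN.2 ⟨hcon.1, fun n hn1 hn2 => le_trans ?_ (hcon.2 n hn1 hn2)⟩⟩
    have : (2 : ℤ) ^ (8 * mm h * uu h w) ≤ 2 ^ (30000000 * (h * w)) :=
      pow_le_pow_right₀ (by norm_num) (by omega)
    linarith
  set R : ℝ := E * 2 ^ (30000000 * (h ^ 2 * w)) with hR
  have hexpo : (30000000 * (h ^ 2 * w)) = (30000000 * (h ^ 2 * w) - 2) + 2 := by omega
  have hR4 : R = 4 * (E * 2 ^ (30000000 * (h ^ 2 * w) - 2)) := by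
    rw [hR, hexpo, pow_add, Nat.add_sub_cancel]
    ring
  have hR0 : 0 ≤ R := by positivity
  have t1 : (2 : ℝ) ^ (8 * mm h * uu h w) ≤ R / 4 := by
    have e1 : (2 : ℝ) ^ (8 * mm h * uu h w) ≤ 2 ^ (30000000 * (h ^ 2 * w) - 2) :=
      pow_le_pow_right₀ (by norm_num) (by omega)
    have e2 : (2 : ℝ) ^ (30000000 * (h ^ 2 * w) - 2) ≤
        E * 2 ^ (30000000 * (h ^ 2 * w) - 2) := le_mul_of_one_le_left (by positivity) hE
    linarith
  have h6 : (6 * h : ℝ) ≤ 2 ^ w := by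
    have : 6 * h ≤ 2 ^ w := (Nat.mul_le_mul_left 6 hw).trans (six_le w hw40)
    exact_mod_cast this
  have t2 : (6 * h : ℝ) * (A₀ / 2 ^ (100 * mm h * w)) ≤ A₀ / 2 ^ w / 4 := by
    calc (6 * h : ℝ) * (A₀ / 2 ^ (100 * mm h * w)) ≤
          2 ^ w * (A₀ / 2 ^ (100 * mm h * w)) := by gcongr
      _ ≤ A₀ / 2 ^ w / 4 := by
          rw [div_div, ← mul_div_assoc, div_le_div_iff₀ (by positivity) (by positivity)]
          rw [show (2 : ℝ) ^ w * A₀ * (2 ^ w * 4) = A₀ * (2 ^ w * 2 ^ w * 2 ^ 2) by ring,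
            ← pow_add, ← pow_add]
          apply mul_le_mul_of_nonneg_left _ hA₀
          apply pow_le_pow_right₀ (by norm_num)
          have : 100 * 1 * w ≤ 100 * mm h * w := by
            have : 1 ≤ mm h := by omega
            gcongr
          omega
  have t3 : (6 * h : ℝ) * (E * 2 ^ (21000000 * (h ^ 2 * w))) ≤ R / 4 := by
    have e1 : (6 * h : ℝ) * 2 ^ (21000000 * (h ^ 2 * w)) ≤ 2 ^ (30000000 * (h ^ 2 * w) - 2) := by
      calc (6 * h : ℝ) * 2 ^ (21000000 * (h ^ 2 * w)) ≤ 2 ^ w * 2 ^ (21000000 * (h ^ 2 * w)) := by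
            gcongr
        _ ≤ 2 ^ (30000000 * (h ^ 2 * w) - 2) := by
            rw [← pow_add]
            exact pow_le_pow_right₀ (by norm_num) (by omega)
    have e2 := mul_le_mul_of_nonneg_left e1 hE0
    rw [hR4]
    calc (6 * h : ℝ) * (E * 2 ^ (21000000 * (h ^ 2 * w))) =
          E * ((6 * h : ℝ) * 2 ^ (21000000 * (h ^ 2 * w))) := by ring
      _ ≤ E * 2 ^ (30000000 * (h ^ 2 * w) - 2) := e2
      _ = _ := by ring
  have t4 : (2 : ℝ) ^ h * (A₀ * 2 ^ h / 2 ^ (20 * w)) ≤ A₀ / 2 ^ w / 4 := by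
    rw [div_div, ← mul_div_assoc, div_le_div_iff₀ (by positivity) (by positivity)]
    rw [show (2 : ℝ) ^ h * (A₀ * 2 ^ h) * (2 ^ w * 4) = A₀ * (2 ^ h * 2 ^ h * 2 ^ w * 2 ^ 2) by
      ring, ← pow_add, ← pow_add, ← pow_add]
    apply mul_le_mul_of_nonneg_left _ hA₀
    apply pow_le_pow_right₀ (by norm_num)
    omega
  have t5 : (2 : ℝ) ^ h * (E * (2 ^ h) ^ (20 * w)) ≤ R / 4 := by
    have e1 : (2 : ℝ) ^ h * (2 ^ h) ^ (20 * w) ≤ 2 ^ (30000000 * (h ^ 2 * w) - 2) := by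
      rw [← pow_mul, ← pow_add]
      apply pow_le_pow_right₀ (by norm_num)
      have : h * (20 * w) = 20 * (h * w) := by ring
      omega
    have e2 := mul_le_mul_of_nonneg_left e1 hE0
    rw [hR4]
    calc (2 : ℝ) ^ h * (E * (2 ^ h) ^ (20 * w)) = E * ((2 : ℝ) ^ h * (2 ^ h) ^ (20 * w)) := by ring
      _ ≤ E * 2 ^ (30000000 * (h ^ 2 * w) - 2) := e2
      _ = _ := by ring
  have t7 : 0 ≤ A₀ / 2 ^ w := by positivity
  calc _ ≤ _ := hle
    _ ≤ _ := h1
    _ ≤ A₀ / 2 ^ w + R := by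
      rw [mul_add, mul_add]
      linarith

/-- the `N ≥ 3` of an interval of length `X` -/
def Iv (Y X : ℕ) : Finset ℕ := (Ioc Y (Y + X)).filter (fun N => 3 ≤ N)

lemma fam_Iv (Y X : ℕ) : Fam (Iv Y X) X 1 := by
  intro q r hq
  have hq0 : 0 < q := by omega
  have h1 : ((Iv Y X).filter (fun N : ℕ => N % q = r)).card ≤ (range (X / q + 1)).card := by
    apply Finset.card_le_card_of_injOn (fun N => (N - Y - 1) / q)
    · intro N hN
      have hN' := mem_filter.1 (mem_coe.1 hN)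
      rw [Iv, mem_filter, mem_Ioc] at hN'
      have : (N - Y - 1) / q ≤ X / q := Nat.div_le_div_right (by omega)
      simp only [coe_range, Set.mem_Iio]
      omega
    · intro N hN N' hN' hee
      have a1 := mem_filter.1 (mem_coe.1 hN)
      have a2 := mem_filter.1 (mem_coe.1 hN')
      rw [Iv, mem_filter, mem_Ioc] at a1 a2
      have he' : (N - Y - 1) / q = (N' - Y - 1) / q := hee
      have key : ∀ M M' : ℕ, Y < M → M ≤ M' → M % q = M' % q →
          (M - Y - 1) / q = (M' - Y - 1) / q → M = M' := by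
        intro M M' hM hle hmod hdiv
        obtain ⟨k, hk⟩ := (Nat.modEq_iff_dvd' hle).1 hmod
        have h7 : M' - Y - 1 = (M - Y - 1) + q * k := by omega
        rw [h7, Nat.add_mul_div_left _ _ hq0] at hdiv
        have h9 : k = 0 := by omega
        rw [h9] at hk
        omega
      rcases le_total N N' with h | h
      · exact key N N' a1.1.1.1 h (a1.2.trans a2.2.symm) he'
      · exact (key N' N a2.1.1.1 h (a2.2.trans a1.2.symm) he'.symm).symm
  rw [card_range] at h1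
  calc (((Iv Y X).filter (fun N : ℕ => N % q = r)).card : ℝ) ≤ ((X / q + 1 : ℕ) : ℝ) := by
        exact_mod_cast h1
    _ = ((X / q : ℕ) : ℝ) + 1 := by push_cast; ring
    _ ≤ (X : ℝ) / q + 1 := by
        have := @Nat.cast_div_le ℝ _ _ _ X q
        linarith

open Classical in
theorem mainI (hREC : S_REC) (hBIG : S_BIG) (hRUN : S_RUN) (h w Y X : ℕ)
    (hh : 1 ≤ h) (hw : h ≤ w) (hw40 : 40 ≤ w) (hX : 2 ^ (100000000 * (h ^ 2 * w)) ≤ X) :
    (((Iv Y X).filter (fun N : ℕ => ¬ (2 ^ h < g N ∧ ∀ n, 1 ≤ n → n ≤ 2 ^ h →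
      (N : ℤ) - 2 ^ (100000000 * (h * w)) ≤ a N n))).card : ℝ) ≤ (X : ℝ) / 2 ^ w := by
  have h12 : w ≤ h * w := Nat.le_mul_of_pos_left _ (by omega)
  have h23 : h * w ≤ h ^ 2 * w := by
    have : h ^ 1 ≤ h ^ 2 := Nat.pow_le_pow_right hh (by norm_num)
    rw [pow_one] at this
    exact Nat.mul_le_mul_right _ this
  have h2h : h ^ 2 ≤ h ^ 2 * w := Nat.le_mul_of_pos_right _ (by omega)
  have hhw : h ≤ h * w := Nat.le_mul_of_pos_right _ (by omega)
  have h1 := main2 hREC hBIG hRUN (Iv Y X) X 1 (Nat.cast_nonneg X) le_rfl (fam_Iv Y X)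
    (fun N hN => (mem_filter.1 hN).2) h (w + 1) hh (by omega) (by omega)
  have e1 : h * (w + 1) = h * w + h := by ring
  have e2 : h ^ 2 * (w + 1) = h ^ 2 * w + h ^ 2 := by ring
  rw [e1, e2] at h1
  have hle : (((Iv Y X).filter (fun N : ℕ => ¬ (2 ^ h < g N ∧ ∀ n, 1 ≤ n → n ≤ 2 ^ h →
      (N : ℤ) - 2 ^ (100000000 * (h * w)) ≤ a N n))).card : ℝ) ≤
      (((Iv Y X).filter (fun N : ℕ => ¬ (2 ^ h < g N ∧ ∀ n, 1 ≤ n → n ≤ 2 ^ h →
      (N : ℤ) - 2 ^ (30000000 * (h * w + h)) ≤ a N n))).card : ℝ) := by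
    refine Nat.cast_le.2 (card_le_card ?_)
    intro N hN
    rw [mem_filter] at hN ⊢
    refine ⟨hN.1, fun hcon => hN.2 ⟨hcon.1, fun n hn1 hn2 => le_trans ?_ (hcon.2 n hn1 hn2)⟩⟩
    have : (2 : ℤ) ^ (30000000 * (h * w + h)) ≤ 2 ^ (100000000 * (h * w)) :=
      pow_le_pow_right₀ (by norm_num) (by omega)
    linarith
  have hXR : (2 : ℝ) ^ (100000000 * (h ^ 2 * w)) ≤ X := by exact_mod_cast hX
  have t1 : (1 : ℝ) * 2 ^ (30000000 * (h ^ 2 * w + h ^ 2)) ≤ (X : ℝ) / 2 ^ (w + 1) := by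
    rw [one_mul, le_div_iff₀ (by positivity), ← pow_add]
    exact (pow_le_pow_right₀ (by norm_num) (by omega)).trans hXR
  have t6 : (X : ℝ) / 2 ^ (w + 1) = (X : ℝ) / 2 ^ w / 2 := by
    rw [pow_add, div_div]
    norm_num
  rw [t6] at t1 h1
  linarith

open Classical in
/-- the uniform form -/
theorem mainU (h Y X : ℕ) (hh : 1 ≤ h) (hX : 2 ^ (4000000000 * h ^ 3) ≤ X)
    (hm : ∀ w : ℕ, h ≤ w → 40 ≤ w → 2 ^ (100000000 * (h ^ 2 * w)) ≤ X →
      (((Iv Y X).filter (fun N : ℕ => ¬ (2 ^ h < g N ∧ ∀ n, 1 ≤ n → n ≤ 2 ^ h →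
      (N : ℤ) - 2 ^ (100000000 * (h * w)) ≤ a N n))).card : ℝ) ≤ (X : ℝ) / 2 ^ w) :
    (((Iv Y X).filter (fun N : ℕ => ¬ (2 ^ h < g N ∧ ∀ n, 1 ≤ n → n ≤ 2 ^ h →
      (N : ℝ) - (X : ℝ) ^ (1 / (h : ℝ)) ≤ a N n))).card : ℝ) ≤
      (X : ℝ) ^ (1 - 1 / (4000000000 * (h : ℝ) ^ 2)) := by
  set w := Nat.log 2 X / (100000000 * h ^ 2) with hw
  have hX0 : X ≠ 0 := by
    have : 0 < 2 ^ (4000000000 * h ^ 3) := by positivity
    omega
  have hXpos : (0 : ℝ) < X := by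
    have : 0 < X := by omega
    exact_mod_cast this
  have hlog : 4000000000 * h ^ 3 ≤ Nat.log 2 X := Nat.le_log_of_pow_le (by norm_num) hX
  have hc0 : 0 < 100000000 * h ^ 2 := by positivity
  have hw1 : 40 * h ≤ w := by
    rw [hw, Nat.le_div_iff_mul_le hc0]
    calc 40 * h * (100000000 * h ^ 2) = 4000000000 * h ^ 3 := by ring
      _ ≤ Nat.log 2 X := hlog
  have hw2 : 2 ^ (100000000 * (h ^ 2 * w)) ≤ X := by
    have h1 : 100000000 * (h ^ 2 * w) ≤ Nat.log 2 X := by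
      calc 100000000 * (h ^ 2 * w) = 100000000 * h ^ 2 * w := by ring
        _ ≤ Nat.log 2 X := Nat.mul_div_le _ _
    exact (Nat.pow_le_pow_right (by norm_num) h1).trans (Nat.pow_log_le_self 2 hX0)
  have hw3 : Nat.log 2 X < 100000000 * h ^ 2 * (w + 1) := by
    rw [hw]
    exact Nat.lt_mul_div_succ _ hc0
  have hmain := hm w (by omega) (by omega) hw2
  have hhR : (1 : ℝ) ≤ h := by exact_mod_cast hh
  have hhR0 : (0 : ℝ) < h := by linarith
  have hpow : (2 : ℝ) ^ (100000000 * (h * w)) ≤ (X : ℝ) ^ (1 / (h : ℝ)) := by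
    have h1 : ((2 : ℝ) ^ (100000000 * (h * w))) ^ (h : ℝ) ≤ X := by
      rw [Real.rpow_natCast, ← pow_mul]
      have : 100000000 * (h * w) * h = 100000000 * (h ^ 2 * w) := by ring
      rw [this]
      exact_mod_cast hw2
    calc (2 : ℝ) ^ (100000000 * (h * w)) =
          (((2 : ℝ) ^ (100000000 * (h * w))) ^ (h : ℝ)) ^ (1 / (h : ℝ)) := by
          rw [← Real.rpow_mul (by positivity), mul_one_div_cancel hhR0.ne', Real.rpow_one]
      _ ≤ (X : ℝ) ^ (1 / (h : ℝ)) := Real.rpow_le_rpow (by positivity) h1 (by positivity)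
  have hX2 : (X : ℝ) < 2 ^ (100000000 * h ^ 2 * (w + 1)) := by
    have h1 : X < 2 ^ (Nat.log 2 X + 1) := Nat.lt_pow_succ_log_self (by norm_num) X
    have h2 : 2 ^ (Nat.log 2 X + 1) ≤ 2 ^ (100000000 * h ^ 2 * (w + 1)) :=
      Nat.pow_le_pow_right (by norm_num) hw3
    exact_mod_cast h1.trans_le h2
  have hsav : (X : ℝ) ^ (1 / (4000000000 * (h : ℝ) ^ 2)) ≤ 2 ^ w := by
    calc (X : ℝ) ^ (1 / (4000000000 * (h : ℝ) ^ 2)) ≤
          ((2 : ℝ) ^ (100000000 * h ^ 2 * (w + 1))) ^ (1 / (4000000000 * (h : ℝ) ^ 2)) :=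
          Real.rpow_le_rpow hXpos.le hX2.le (by positivity)
      _ = (2 : ℝ) ^ (((w : ℝ) + 1) / 40) := by
          rw [← Real.rpow_natCast, ← Real.rpow_mul (by norm_num)]
          congr 1
          push_cast
          field_simp
          norm_num
      _ ≤ (2 : ℝ) ^ (w : ℝ) := by
          apply Real.rpow_le_rpow_of_exponent_le (by norm_num)
          have : (40 : ℝ) ≤ w := by
            have : 40 ≤ w := by omega
            exact_mod_cast this
          linarith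
      _ = 2 ^ w := Real.rpow_natCast _ _
  calc _ ≤ (((Iv Y X).filter (fun N : ℕ => ¬ (2 ^ h < g N ∧ ∀ n, 1 ≤ n → n ≤ 2 ^ h →
      (N : ℤ) - 2 ^ (100000000 * (h * w)) ≤ a N n))).card : ℝ) := by
        refine Nat.cast_le.2 (card_le_card ?_)
        intro N hN
        rw [mem_filter] at hN ⊢
        refine ⟨hN.1, fun hcon => hN.2 ⟨hcon.1, fun n hn1 hn2 => ?_⟩⟩
        have h1 := hcon.2 n hn1 hn2
        have h2 : ((((N : ℤ) - 2 ^ (100000000 * (h * w)) : ℤ)) : ℝ) ≤ ((a N n : ℤ) : ℝ) := by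
          exact_mod_cast h1
        push_cast at h2
        linarith
    _ ≤ (X : ℝ) / 2 ^ w := hmain
    _ ≤ (X : ℝ) / (X : ℝ) ^ (1 / (4000000000 * (h : ℝ) ^ 2)) := by
        apply div_le_div_of_nonneg_left hXpos.le (by positivity) hsav
    _ = (X : ℝ) ^ (1 - 1 / (4000000000 * (h : ℝ) ^ 2)) := by
        rw [Real.rpow_sub hXpos, Real.rpow_one]

open Classical in
/-- the form with logarithms -/
theorem main3 (C : ℕ) (hC : 40 ≤ C)
    (hm : ∀ h : ℕ, 40 ≤ h → ∀ Y X : ℕ, 2 ^ (C * h ^ 3) ≤ X →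
      (((Iv Y X).filter (fun N : ℕ => ¬ (2 ^ h < g N ∧ ∀ n, 1 ≤ n → n ≤ 2 ^ h →
      (N : ℤ) - 2 ^ (C * h ^ 2) ≤ a N n))).card : ℝ) ≤ (X : ℝ) / 2 ^ h) :
    ∃ c : ℝ, 0 < c ∧ ∀ᶠ X : ℕ in atTop, ∀ Y : ℕ,
      (((Iv Y X).filter (fun N : ℕ =>
        (g N : ℝ) < Real.exp (c * (Real.log X) ^ (1 / 3 : ℝ)))).card : ℝ) ≤
        (X : ℝ) * Real.exp (-(c * (Real.log X) ^ (1 / 3 : ℝ))) := by
  have hCR : (40 : ℝ) ≤ C := by exact_mod_cast hC
  have hC0 : (0 : ℝ) < C := by linarith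
  refine ⟨1 / (16 * C), by positivity, ?_⟩
  have hlog : Tendsto (fun X : ℕ => Real.log X) atTop atTop :=
    Real.tendsto_log_atTop.comp tendsto_natCast_atTop_atTop
  have ht : Tendsto (fun X : ℕ => (Real.log X / C) ^ (1 / 3 : ℝ)) atTop atTop :=
    (tendsto_rpow_atTop (by norm_num)).comp (hlog.atTop_div_const hC0)
  filter_upwards [ht.eventually_ge_atTop 41, hlog.eventually_ge_atTop 1,
    eventually_ge_atTop 3] with X hX hX1 hX3 Y
  set L := Real.log X with hL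
  set z := (L / C) ^ (1 / 3 : ℝ) with hz
  set h := ⌊z⌋₊ with hh
  have hz0 : 0 ≤ z := by linarith
  have hLC : 0 ≤ L / C := by positivity
  have hz4 : z ^ 3 = L / C := by
    rw [hz, ← Real.rpow_natCast, ← Real.rpow_mul hLC]
    norm_num
  have hhz : (h : ℝ) ≤ z := Nat.floor_le hz0
  have hhz2 : z - 1 < h := by
    have := Nat.lt_floor_add_one z
    linarith
  have hhz3 : z / 2 ≤ h := by linarith
  have hh40 : 40 ≤ h := Nat.le_floor (by push_cast; linarith)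
  have hXpos : (0 : ℝ) < X := by
    have : 0 < X := by omega
    exact_mod_cast this
  have hl2 : Real.log 2 ≤ 1 := by
    have := Real.log_two_lt_d9
    linarith
  have hl2' : 1 / 2 ≤ Real.log 2 := by
    have := Real.log_two_gt_d9
    linarith
  have hXle : 2 ^ (C * h ^ 3) ≤ X := by
    have h1 : ((C * h ^ 3 : ℕ) : ℝ) * Real.log 2 ≤ L := by
      push_cast
      have h2 : (h : ℝ) ^ 3 ≤ L / C := by
        rw [← hz4]
        gcongr
      have h3 : (C : ℝ) * (h : ℝ) ^ 3 ≤ L := by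
        calc (C : ℝ) * (h : ℝ) ^ 3 ≤ C * (L / C) := by gcongr
          _ = L := by field_simp
      calc (C : ℝ) * (h : ℝ) ^ 3 * Real.log 2 ≤ C * (h : ℝ) ^ 3 * 1 := by gcongr
        _ ≤ L := by linarith
    have h2 : ((2 ^ (C * h ^ 3) : ℕ) : ℝ) ≤ X := by
      rw [← Real.exp_log hXpos, ← hL]
      push_cast
      rw [← Real.exp_log (show (0 : ℝ) < 2 by norm_num), ← Real.exp_nat_mul]
      exact Real.exp_le_exp.2 h1
    exact_mod_cast h2
  have hmain := hm h hh40 Y X hXle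
  have hC1 : 1 / (C : ℝ) ≤ (1 / (C : ℝ)) ^ (1 / 3 : ℝ) := by
    have h1 : 1 / (C : ℝ) ≤ 1 := by
      rw [div_le_one hC0]
      linarith
    calc 1 / (C : ℝ) = (1 / (C : ℝ)) ^ (1 : ℝ) := (Real.rpow_one _).symm
      _ ≤ (1 / (C : ℝ)) ^ (1 / 3 : ℝ) :=
        Real.rpow_le_rpow_of_exponent_ge (by positivity) h1 (by norm_num)
  have hL0 : 0 ≤ L := by linarith
  have hzL : 1 / (C : ℝ) * L ^ (1 / 3 : ℝ) ≤ z := by
    rw [hz, div_eq_mul_one_div L, Real.mul_rpow hL0 (by positivity), mul_comm]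
    gcongr
  calc _ ≤ (((Iv Y X).filter (fun N : ℕ => ¬ (2 ^ h < g N ∧ ∀ n, 1 ≤ n → n ≤ 2 ^ h →
      (N : ℤ) - 2 ^ (C * h ^ 2) ≤ a N n))).card : ℝ) := by
        refine Nat.cast_le.2 (card_le_card ?_)
        intro N hN
        rw [mem_filter] at hN ⊢
        refine ⟨hN.1, fun hcon => ?_⟩
        have h1 : ((2 ^ h : ℕ) : ℝ) < g N := by exact_mod_cast hcon.1
        have h2 := hN.2
        have h5 : Real.exp (1 / (16 * C) * L ^ (1 / 3 : ℝ)) ≤ ((2 ^ h : ℕ) : ℝ) := by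
          push_cast
          rw [← Real.exp_log (show (0 : ℝ) < 2 by norm_num), ← Real.exp_nat_mul]
          apply Real.exp_le_exp.2
          calc 1 / (16 * C) * L ^ (1 / 3 : ℝ) = 1 / 16 * (1 / (C : ℝ) * L ^ (1 / 3 : ℝ)) := by
                field_simp
            _ ≤ 1 / 16 * z := by gcongr
            _ ≤ h * Real.log 2 := by nlinarith
        linarith
    _ ≤ (X : ℝ) / 2 ^ h := hmain
    _ ≤ (X : ℝ) * Real.exp (-(1 / (16 * C) * L ^ (1 / 3 : ℝ))) := by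
        rw [div_eq_mul_inv]
        apply mul_le_mul_of_nonneg_left _ hXpos.le
        rw [Real.exp_neg]
        apply inv_anti₀ (Real.exp_pos _)
        rw [← Real.exp_log (show (0 : ℝ) < 2 by norm_num), ← Real.exp_nat_mul]
        apply Real.exp_le_exp.2
        calc 1 / (16 * C) * L ^ (1 / 3 : ℝ) = 1 / 16 * (1 / (C : ℝ) * L ^ (1 / 3 : ℝ)) := by
              field_simp
          _ ≤ 1 / 16 * z := by gcongr
          _ ≤ (h : ℝ) * Real.log 2 := by nlinarith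

lemma geo (a b : ℕ) : ∑ h ∈ Icc a b, (1 / (2 : ℝ) ^ h) ≤ 2 / 2 ^ a := by
  have key : ∀ b, a ≤ b + 1 → ∑ h ∈ Icc a b, (1 / (2 : ℝ) ^ h) = 2 / 2 ^ a - 1 / 2 ^ b := by
    intro b hb
    induction b with
    | zero =>
      rcases Nat.eq_zero_or_pos a with h | h
      · subst h; norm_num
      · have : a = 1 := by omega
        subst this; norm_num
    | succ b ih =>
      rcases Nat.lt_or_ge (b + 1) a with h | h
      · have : a = b + 2 := by omega
        subst this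
        rw [Icc_eq_empty (by omega), sum_empty, pow_succ, pow_succ]
        field_simp
        norm_num
      · rw [sum_Icc_succ_top h, ih h, pow_succ]
        field_simp
        ring
  rcases Nat.lt_or_ge (b + 1) a with h | h
  · rw [Icc_eq_empty (by omega), sum_empty]
    positivity
  · rw [key b h]
    have : (0 : ℝ) < 1 / 2 ^ b := by positivity
    linarith

open Classical in
/-- the form which is uniform in `n` -/
theorem main4 (C : ℕ) (hC : 40 ≤ C)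
    (hm : ∀ h : ℕ, 40 ≤ h → ∀ Y X : ℕ, 2 ^ (C * h ^ 3) ≤ X →
      (((Iv Y X).filter (fun N : ℕ => ¬ (2 ^ h < g N ∧ ∀ n, 1 ≤ n → n ≤ 2 ^ h →
      (N : ℤ) - 2 ^ (C * h ^ 2) ≤ a N n))).card : ℝ) ≤ (X : ℝ) / 2 ^ h) (Y X m : ℕ)
    (hm0 : 2 ^ 40 ≤ m) :
    (((Iv Y X).filter (fun N : ℕ => ¬ ∀ n : ℕ, m ≤ n →
      (n : ℝ) ≤ Real.exp (1 / (16 * C) * (Real.log X) ^ (1 / 3 : ℝ)) →
      n < g N ∧ (N : ℝ) - Real.exp (16 * C * (Real.log n) ^ 2) ≤ a N n)).card : ℝ) ≤ 2 * X / m := by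
  set h0 := Nat.log 2 m + 1 with hh0
  have hCR : (40 : ℝ) ≤ C := by exact_mod_cast hC
  have hC0 : (0 : ℝ) < C := by linarith
  have hmh : m < 2 ^ h0 := Nat.lt_pow_succ_log_self (by norm_num) m
  have h040 : 40 < h0 := by
    by_contra hcon
    push Not at hcon
    have : 2 ^ h0 ≤ 2 ^ 40 := Nat.pow_le_pow_right (by norm_num) hcon
    omega
  have hl2 : Real.log 2 ≤ 1 := by
    have := Real.log_two_lt_d9
    linarith
  have hl2' : 1 / 2 ≤ Real.log 2 := by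
    have := Real.log_two_gt_d9
    linarith
  set E : ℕ → Finset ℕ := fun h => (Iv Y X).filter (fun N : ℕ => 2 ^ (C * h ^ 3) ≤ X ∧
    ¬ (2 ^ h < g N ∧ ∀ n, 1 ≤ n → n ≤ 2 ^ h → (N : ℤ) - 2 ^ (C * h ^ 2) ≤ a N n)) with hE
  have hEc : ∀ h ∈ Icc h0 X, ((E h).card : ℝ) ≤ X * (1 / 2 ^ h) := by
    intro h hh
    rw [mem_Icc] at hh
    by_cases hX : 2 ^ (C * h ^ 3) ≤ X
    · have h1 := hm h (by omega) Y X hX
      have h2 : ((E h).card : ℝ) ≤ (((Iv Y X).filter (fun N : ℕ => ¬ (2 ^ h < g N ∧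
          ∀ n, 1 ≤ n → n ≤ 2 ^ h → (N : ℤ) - 2 ^ (C * h ^ 2) ≤ a N n))).card : ℝ) := by
        refine Nat.cast_le.2 (card_le_card ?_)
        intro N hN
        simp only [hE, mem_filter] at hN
        rw [mem_filter]
        exact ⟨hN.1, hN.2.2⟩
      calc ((E h).card : ℝ) ≤ _ := h2
        _ ≤ (X : ℝ) / 2 ^ h := h1
        _ = X * (1 / 2 ^ h) := by ring
    · have h2 : E h = ∅ := by
        simp only [hE]
        rw [filter_eq_empty_iff]
        intro N _ hcon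
        exact hX hcon.1
      rw [h2]
      simp only [card_empty, Nat.cast_zero]
      positivity
  have hsub : (Iv Y X).filter (fun N : ℕ => ¬ ∀ n : ℕ, m ≤ n →
      (n : ℝ) ≤ Real.exp (1 / (16 * C) * (Real.log X) ^ (1 / 3 : ℝ)) →
      n < g N ∧ (N : ℝ) - Real.exp (16 * C * (Real.log n) ^ 2) ≤ a N n) ⊆
      (Icc h0 X).biUnion E := by
    intro N hN
    rw [mem_filter] at hN
    obtain ⟨hN1, hN2⟩ := hN
    push Not at hN2
    obtain ⟨n, hn1, hn2, hn3⟩ := hN2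
    have hX1 : (1 : ℝ) ≤ X := by
      have : 1 ≤ X := by
        rw [Iv, mem_filter, mem_Ioc] at hN1
        omega
      exact_mod_cast this
    have hXpos : (0 : ℝ) < X := by linarith
    set h := Nat.log 2 n + 1 with hh
    have hn0 : n ≠ 0 := by
      have : 0 < 2 ^ 40 := by norm_num
      omega
    have hnpos : (0 : ℝ) < n := by
      have : 0 < n := by omega
      exact_mod_cast this
    have hnh : n < 2 ^ h := Nat.lt_pow_succ_log_self (by norm_num) n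
    have hhn : 2 ^ (h - 1) ≤ n := by
      rw [hh, Nat.add_sub_cancel]
      exact Nat.pow_log_le_self 2 hn0
    have hh0h : h0 ≤ h := by
      have : Nat.log 2 m ≤ Nat.log 2 n := Nat.log_mono_right hn1
      omega
    have hlogn : (h : ℝ) ≤ 4 * Real.log n := by
      have h1 : ((h - 1 : ℕ) : ℝ) * Real.log 2 ≤ Real.log n := by
        have h2 : ((2 ^ (h - 1) : ℕ) : ℝ) ≤ n := by exact_mod_cast hhn
        have h3 := Real.log_le_log (by positivity) h2
        push_cast at h3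
        rwa [Real.log_pow] at h3
      have h4 : (h : ℝ) = ((h - 1 : ℕ) : ℝ) + 1 := by
        have : h = (h - 1) + 1 := by omega
        exact_mod_cast this
      have h5 : (40 : ℝ) ≤ ((h - 1 : ℕ) : ℝ) := by
        have : 40 ≤ h - 1 := by omega
        exact_mod_cast this
      rw [h4]
      nlinarith
    have hlogn2 : Real.log n ≤ 1 / (16 * C) * (Real.log X) ^ (1 / 3 : ℝ) := by
      rw [← Real.log_exp (1 / (16 * C) * (Real.log X) ^ (1 / 3 : ℝ))]
      exact Real.log_le_log hnpos hn2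
    have hlX0 : 0 ≤ Real.log X := Real.log_nonneg hX1
    have hL3 : ((Real.log X) ^ (1 / 3 : ℝ)) ^ 3 = Real.log X := by
      rw [← Real.rpow_natCast, ← Real.rpow_mul hlX0]
      norm_num
    have hhX : 2 ^ (C * h ^ 3) ≤ X := by
      have h1 : (h : ℝ) ≤ 1 / (4 * C) * (Real.log X) ^ (1 / 3 : ℝ) := by
        calc (h : ℝ) ≤ 4 * Real.log n := hlogn
          _ ≤ 4 * (1 / (16 * C) * (Real.log X) ^ (1 / 3 : ℝ)) := by gcongr
          _ = 1 / (4 * C) * (Real.log X) ^ (1 / 3 : ℝ) := by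
            field_simp
            norm_num
      have h2 : (h : ℝ) ^ 3 ≤ (1 / (4 * C)) ^ 3 * Real.log X := by
        calc (h : ℝ) ^ 3 ≤ (1 / (4 * C) * (Real.log X) ^ (1 / 3 : ℝ)) ^ 3 := by gcongr
          _ = (1 / (4 * C)) ^ 3 * Real.log X := by rw [mul_pow, hL3]
      have h3 : (C : ℝ) * (h : ℝ) ^ 3 * Real.log 2 ≤ Real.log X := by
        have h4 : (C : ℝ) * (1 / (4 * C)) ^ 3 ≤ 1 := by
          have e : (C : ℝ) * (1 / (4 * C)) ^ 3 = 1 / (64 * C ^ 2) := by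
            field_simp
            norm_num
          rw [e, div_le_one (by positivity)]
          nlinarith
        calc (C : ℝ) * (h : ℝ) ^ 3 * Real.log 2 ≤ C * (h : ℝ) ^ 3 * 1 := by gcongr
          _ = C * (h : ℝ) ^ 3 := by ring
          _ ≤ C * ((1 / (4 * C)) ^ 3 * Real.log X) := by gcongr
          _ = (C * (1 / (4 * C)) ^ 3) * Real.log X := by ring
          _ ≤ 1 * Real.log X := by gcongr
          _ = Real.log X := one_mul _
      have h5 : ((2 ^ (C * h ^ 3) : ℕ) : ℝ) ≤ X := by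
        rw [← Real.exp_log hXpos]
        push_cast
        rw [← Real.exp_log (show (0 : ℝ) < 2 by norm_num), ← Real.exp_nat_mul]
        apply Real.exp_le_exp.2
        push_cast
        exact h3
      exact_mod_cast h5
    rw [mem_biUnion]
    refine ⟨h, ?_, ?_⟩
    · rw [mem_Icc]
      refine ⟨hh0h, ?_⟩
      have h1 : h ≤ C * h ^ 3 := by
        have : h ^ 1 ≤ h ^ 3 := Nat.pow_le_pow_right (by omega) (by norm_num)
        rw [pow_one] at this
        nlinarith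
      have h2 : C * h ^ 3 < 2 ^ (C * h ^ 3) := Nat.lt_two_pow_self
      omega
    · simp only [hE, mem_filter]
      refine ⟨hN1, hhX, fun hcon => ?_⟩
      have hng : n < g N := by
        have := hcon.1
        omega
      have h1 := hcon.2 n (by omega) hnh.le
      have h2 := hn3 hng
      have h3 : ((((N : ℤ) - 2 ^ (C * h ^ 2) : ℤ)) : ℝ) ≤ ((a N n : ℤ) : ℝ) := by
        exact_mod_cast h1
      push_cast at h3
      have h4 : (2 : ℝ) ^ (C * h ^ 2) ≤ Real.exp (16 * C * (Real.log n) ^ 2) := by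
        rw [← Real.exp_log (show (0 : ℝ) < 2 by norm_num), ← Real.exp_nat_mul]
        apply Real.exp_le_exp.2
        push_cast
        have h5 : (h : ℝ) ^ 2 ≤ (4 * Real.log n) ^ 2 := by gcongr
        calc (C : ℝ) * (h : ℝ) ^ 2 * Real.log 2 ≤ C * (4 * Real.log n) ^ 2 * 1 := by gcongr
          _ = 16 * C * (Real.log n) ^ 2 := by ring
      linarith
  calc _ ≤ (((Icc h0 X).biUnion E).card : ℝ) := by exact_mod_cast card_le_card hsub
    _ ≤ ∑ h ∈ Icc h0 X, ((E h).card : ℝ) := by exact_mod_cast card_biUnion_le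
    _ ≤ ∑ h ∈ Icc h0 X, X * (1 / (2 : ℝ) ^ h) := sum_le_sum hEc
    _ = X * ∑ h ∈ Icc h0 X, (1 / (2 : ℝ) ^ h) := by rw [mul_sum]
    _ ≤ X * (2 / 2 ^ h0) := mul_le_mul_of_nonneg_left (geo h0 X) (Nat.cast_nonneg X)
    _ ≤ 2 * X / m := by
        have h1 : (0 : ℝ) < m := by
          have : 0 < m := by
            have : 0 < 2 ^ 40 := by norm_num
            omega
          exact_mod_cast this
        have h2 : (m : ℝ) ≤ 2 ^ h0 := by exact_mod_cast hmh.le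
        rw [← mul_div_assoc, mul_comm (X : ℝ) 2]
        exact div_le_div_of_nonneg_left (by positivity) h1 h2

end Pool.Agent.H10.GB
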