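import Pool.Agent.H10.GB.Exc

/-!
# The count with explicit parameters
-/

set_option autoImplicit false

namespace Pool.Agent.H10.GB

open Finset Pool.Agent.N333.GR

theorem mm_le (h : ℕ) (hh : 1 ≤ h) : mm h ≤ 10 * h := by unfold mm; omega

theorem mm_ge (h : ℕ) : 6 * h ≤ mm h := by unfold mm; omega

theorem uu_le (h w : ℕ) (hh : 1 ≤ h) (hw : h ≤ w) : uu h w ≤ 202 * w := by
  unfold uu yy
  omega

theorem mu_le (h w : ℕ) (hh : 1 ≤ h) (hw : h ≤ w) : 8 * mm h * uu h w ≤ 16160 * (h * w) := by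
  have h1 := mm_le h hh
  have h2 := uu_le h w hh hw
  calc 8 * mm h * uu h w ≤ 8 * (10 * h) * (202 * w) := by gcongr
    _ = 16160 * (h * w) := by ring

theorem log_bound (h w : ℕ) (hh : 1 ≤ h) (hw : h ≤ w) (hw40 : 40 ≤ w) :
    3 * (1 + 8 * mm h * uu h w) ≤ 2 ^ w := by
  have h3 := mu_le h w hh hw
  have h4 : 3 * (1 + 8 * mm h * uu h w) ≤ 800000 * w ^ 3 := by
    have e1 : h * w ≤ w ^ 2 := by
      rw [pow_two]
      exact Nat.mul_le_mul_right _ hw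
    have : 1 ≤ w ^ 2 := Nat.one_le_pow _ _ (by omega)
    have e : w ^ 2 ≤ w ^ 3 := Nat.pow_le_pow_right (by omega) (by norm_num)
    omega
  refine h4.trans ?_
  clear h3 h4 hw
  induction w, hw40 using Nat.le_induction with
  | base => norm_num
  | succ n hn ih =>
    have : (n + 1) ^ 3 ≤ 2 * n ^ 3 := by
      have e : (n + 1) ^ 3 = n ^ 3 + 3 * n ^ 2 + 3 * n + 1 := by ring
      have e3 : n ^ 3 = n * n ^ 2 := by ring
      have e2 : n ^ 2 = n * n := by ring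
      have : 40 * n ^ 2 ≤ n ^ 3 := by rw [e3]; exact Nat.mul_le_mul_right _ hn
      nlinarith
    calc 800000 * (n + 1) ^ 3 ≤ 800000 * (2 * n ^ 3) := by gcongr
      _ = 2 * (800000 * n ^ 3) := by ring
      _ ≤ 2 * 2 ^ n := by gcongr
      _ = 2 ^ (n + 1) := by ring

theorem exp_main (h w : ℕ) (hh : 1 ≤ h) (hw : h ≤ w) :
    64 * mm h + (h + 16 * mm h * uu h w) + (20 * w + 3 * w) * (64 * mm h) +
      100 * mm h * w ≤ 32 * mm h * yy w := by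
  have hu : uu h w = 1 + h + yy w := rfl
  have hy : yy w = 200 * w := rfl
  rw [hu, hy]
  have hm : 10 ≤ mm h := by unfold mm; omega
  generalize mm h = m at hm
  have h1 : m ≤ m * w := Nat.le_mul_of_pos_right _ (by omega)
  have h2 : h ≤ m * w := hw.trans (Nat.le_mul_of_pos_left _ (by omega))
  have h3 : m * h ≤ m * w := Nat.mul_le_mul_left _ hw
  have e : 64 * m + (h + 16 * m * (1 + h + 200 * w)) + (20 * w + 3 * w) * (64 * m) +
      100 * m * w = 80 * m + h + 16 * (m * h) + 4772 * (m * w) := by ring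
  have e2 : 32 * m * (200 * w) = 6400 * (m * w) := by ring
  rw [e, e2]
  omega

theorem exp_tuples (h w : ℕ) (hh : 1 ≤ h) (hw : h ≤ w) :
    64 * mm h + (h + 16 * mm h * uu h w) * (64 * mm h) ≤ 21000000 * (h ^ 2 * w) := by
  have h1 := mm_le h hh
  have h2 := mu_le h w hh hw
  have h3 : (h + 16 * mm h * uu h w) * (64 * mm h) ≤
      (h + 2 * (16160 * (h * w))) * (64 * (10 * h)) := by
    apply Nat.mul_le_mul
    · have : 16 * mm h * uu h w = 2 * (8 * mm h * uu h w) := by ring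
      omega
    · omega
  have h4 : 64 * mm h ≤ 64 * (10 * h) := by gcongr
  have e : (h + 2 * (16160 * (h * w))) * (64 * (10 * h)) =
      640 * h ^ 2 + 20684800 * (h ^ 2 * w) := by ring
  rw [e] at h3
  have h5 : h ^ 2 ≤ h ^ 2 * w := Nat.le_mul_of_pos_right _ (by omega)
  have h6 : h ^ 1 ≤ h ^ 2 := Nat.pow_le_pow_right hh (by norm_num)
  rw [pow_one] at h6
  omega

open Classical in
theorem cnt_bound (F₀ : Finset ℕ) (A₀ E : ℝ) (hA₀ : 0 ≤ A₀) (hE : 0 ≤ E) (hF : Fam F₀ A₀ E)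
    (h w k : ℕ) (hh : 1 ≤ h) (hw : h ≤ w) (hw40 : 40 ≤ w) (hk : k < 6 * h) :
    ((F₀.filter (fun N : ℕ => Good (2 ^ h) (20 * w) N ∧
      BadRun (2 ^ h) (2 ^ (yy w)) (2 ^ (7 * mm h * uu h w))
      (2 ^ (8 * mm h * uu h w)) (2 ^ ((7 * mm h - 2 - k) * uu h w)) (64 * mm h) N)).card : ℝ) ≤
      A₀ / 2 ^ (100 * mm h * w) + E * 2 ^ (21000000 * (h ^ 2 * w)) := by
  have hyl : 3000 ≤ yy w := by
    unfold yy
    omega
  have hml : mm h = 6 * h + 4 := rfl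
  have hcond : (2 ^ (8 * mm h * uu h w)) ^ 2 * 2 ^ (yy w) * (2 ^ h) ^ (2 * (32 * mm h)) ≤
      2 ^ (7 * mm h * uu h w) * (2 ^ ((7 * mm h - 2 - k) * uu h w)) ^ 2 := by
    rw [← pow_mul, ← pow_mul, ← pow_mul, ← pow_add, ← pow_add, ← pow_add]
    apply Nat.pow_le_pow_right (by norm_num)
    have h1 : 6 * mm h + 2 ≤ 7 * mm h - 2 - k := by omega
    have h2 : (6 * mm h + 2) * uu h w ≤ (7 * mm h - 2 - k) * uu h w := Nat.mul_le_mul_right _ h1
    have h3 : 64 * h ≤ uu h w := by unfold uu yy; omega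
    have h4 : mm h * (64 * h) ≤ mm h * uu h w := Nat.mul_le_mul_left _ h3
    have h5 : yy w ≤ uu h w := by unfold uu; omega
    have e1 : 8 * mm h * uu h w * 2 + yy w + h * (2 * (32 * mm h)) =
        16 * (mm h * uu h w) + yy w + mm h * (64 * h) := by ring
    have e2 : 7 * mm h * uu h w + (7 * mm h - 2 - k) * uu h w * 2 =
        7 * (mm h * uu h w) + 2 * ((7 * mm h - 2 - k) * uu h w) := by ring
    have e3 : (6 * mm h + 2) * uu h w = 6 * (mm h * uu h w) + 2 * uu h w := by ring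
    rw [e1, e2]
    rw [e3] at h2
    omega
  have h0 := cntG F₀ A₀ E hA₀ hE hF (2 ^ h) (2 ^ (yy w)) (2 ^ (7 * mm h * uu h w)) (2 ^ (8 * mm h * uu h w))
    (2 ^ ((7 * mm h - 2 - k) * uu h w)) (32 * mm h) (20 * w) Nat.one_le_two_pow
    (by
      calc 2 = 2 ^ 1 := by norm_num
        _ ≤ 2 ^ (yy w) := Nat.pow_le_pow_right (by norm_num) (by omega))
    Nat.one_le_two_pow Nat.one_le_two_pow Nat.one_le_two_pow (by omega) hcond
  rw [show 2 * (32 * mm h) = 64 * mm h by ring] at h0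
  refine h0.trans ?_
  have hlog : 2 ^ (20 * w) * ((3 : ℝ) * ((2 ^ h : ℕ) : ℝ) ^ 2 *
      (1 + Real.log ((2 ^ (8 * mm h * uu h w) : ℕ) : ℝ))) ≤ 2 ^ (20 * w + 3 * w) := by
    have h1 : Real.log ((2 ^ (8 * mm h * uu h w) : ℕ) : ℝ) ≤ (8 * mm h * uu h w : ℕ) := by
      push_cast
      rw [Real.log_pow]
      have : Real.log 2 ≤ 1 := by
        have := Real.log_two_lt_d9
        linarith
      push_cast
      have h3 : (0 : ℝ) ≤ 8 * (mm h : ℝ) * (uu h w : ℝ) := by positivity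
      nlinarith
    have h2 : (3 : ℝ) * (1 + (8 * mm h * uu h w : ℕ)) ≤ 2 ^ w := by exact_mod_cast log_bound h w hh hw hw40
    have h3 : (3 : ℝ) * (1 + Real.log ((2 ^ (8 * mm h * uu h w) : ℕ) : ℝ)) ≤ 2 ^ w := by linarith
    have h4 : ((2 ^ h : ℕ) : ℝ) ≤ 2 ^ w := by
      push_cast
      exact pow_le_pow_right₀ (by norm_num) hw
    rw [pow_add]
    apply mul_le_mul_of_nonneg_left _ (by positivity)
    calc (3 : ℝ) * ((2 ^ h : ℕ) : ℝ) ^ 2 * (1 + Real.log ((2 ^ (8 * mm h * uu h w) : ℕ) : ℝ))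
        = ((2 ^ h : ℕ) : ℝ) ^ 2 * (3 * (1 + Real.log ((2 ^ (8 * mm h * uu h w) : ℕ) : ℝ))) := by ring
      _ ≤ (2 ^ w) ^ 2 * 2 ^ w := by gcongr
      _ = 2 ^ (3 * w) := by
        ring
  have hlog0 : 0 ≤ 2 ^ (20 * w) * ((3 : ℝ) * ((2 ^ h : ℕ) : ℝ) ^ 2 *
      (1 + Real.log ((2 ^ (8 * mm h * uu h w) : ℕ) : ℝ))) := by
    have : 0 ≤ Real.log ((2 ^ (8 * mm h * uu h w) : ℕ) : ℝ) :=
      Real.log_nonneg (by exact_mod_cast Nat.one_le_two_pow)
    positivity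
  have e1 : (4 : ℝ) ^ (32 * mm h) * (A₀ *
      (((2 ^ h : ℕ) : ℝ) * ((2 ^ (8 * mm h * uu h w) : ℕ) : ℝ) ^ 2) *
      (2 ^ (20 * w) * (3 * ((2 ^ h : ℕ) : ℝ) ^ 2 *
        (1 + Real.log ((2 ^ (8 * mm h * uu h w) : ℕ) : ℝ)))) ^
        (64 * mm h) / ((2 ^ (yy w) : ℕ) : ℝ) ^ (32 * mm h)) ≤
      (4 : ℝ) ^ (32 * mm h) * (A₀ *
      (((2 ^ h : ℕ) : ℝ) * ((2 ^ (8 * mm h * uu h w) : ℕ) : ℝ) ^ 2) *
      (2 ^ (20 * w + 3 * w)) ^ (64 * mm h) / ((2 ^ (yy w) : ℕ) : ℝ) ^ (32 * mm h)) := by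
    gcongr
  have e2 : (4 : ℝ) ^ (32 * mm h) * (A₀ *
      (((2 ^ h : ℕ) : ℝ) * ((2 ^ (8 * mm h * uu h w) : ℕ) : ℝ) ^ 2) *
      (2 ^ (20 * w + 3 * w)) ^ (64 * mm h) / ((2 ^ (yy w) : ℕ) : ℝ) ^ (32 * mm h)) =
      A₀ * 2 ^ (64 * mm h + (h + 16 * mm h * uu h w) +
        (20 * w + 3 * w) * (64 * mm h)) / 2 ^ (32 * mm h * yy w) := by
    push_cast
    rw [show (4 : ℝ) = 2 ^ 2 by norm_num]
    simp only [← pow_mul, ← pow_add]
    rw [← mul_div_assoc]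
    congr 1
    · rw [show (2 : ℝ) ^ (2 * (32 * mm h)) * (A₀ *
        2 ^ (h + 8 * mm h * uu h w * 2) * 2 ^ ((20 * w + 3 * w) * (64 * mm h))) =
        A₀ * (2 ^ (2 * (32 * mm h)) *
        2 ^ (h + 8 * mm h * uu h w * 2) * 2 ^ ((20 * w + 3 * w) * (64 * mm h))) by ring]
      congr 1
      rw [← pow_add, ← pow_add]
      congr 1
      ring
    · congr 1
      ring
  have e3 : A₀ * 2 ^ (64 * mm h + (h + 16 * mm h * uu h w) +
        (20 * w + 3 * w) * (64 * mm h)) / 2 ^ (32 * mm h * yy w) ≤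
      A₀ / 2 ^ (100 * mm h * w) := by
    rw [div_le_div_iff₀ (by positivity) (by positivity), mul_assoc, ← pow_add]
    apply mul_le_mul_of_nonneg_left _ hA₀
    apply pow_le_pow_right₀ (by norm_num)
    exact exp_main h w hh hw
  have e4 : (4 : ℝ) ^ (32 * mm h) * (((2 ^ h : ℕ) : ℝ) *
      ((2 ^ (8 * mm h * uu h w) : ℕ) : ℝ) ^ 2) ^ (64 * mm h) ≤ 2 ^ (21000000 * (h ^ 2 * w)) := by
    have e5 : (4 : ℝ) ^ (32 * mm h) * (((2 ^ h : ℕ) : ℝ) *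
      ((2 ^ (8 * mm h * uu h w) : ℕ) : ℝ) ^ 2) ^ (64 * mm h) =
      2 ^ (64 * mm h + (h + 16 * mm h * uu h w) * (64 * mm h)) := by
      push_cast
      rw [show (4 : ℝ) = 2 ^ 2 by norm_num]
      simp only [← pow_mul, ← pow_add]
      congr 1
      ring
    rw [e5]
    apply pow_le_pow_right₀ (by norm_num)
    exact exp_tuples h w hh hw
  rw [mul_add]
  refine add_le_add (e1.trans (e2.le.trans e3)) ?_
  calc (4 : ℝ) ^ (32 * mm h) * (E * (((2 ^ h : ℕ) : ℝ) *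
      ((2 ^ (8 * mm h * uu h w) : ℕ) : ℝ) ^ 2) ^ (64 * mm h)) =
      E * ((4 : ℝ) ^ (32 * mm h) * (((2 ^ h : ℕ) : ℝ) *
      ((2 ^ (8 * mm h * uu h w) : ℕ) : ℝ) ^ 2) ^ (64 * mm h)) := by ring
    _ ≤ E * 2 ^ (21000000 * (h ^ 2 * w)) := mul_le_mul_of_nonneg_left e4 hE

end Pool.Agent.H10.GB
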